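import Pool.Agent.P.MP_a66f6f_co.NR.Iface

/-! Step A1. -/

namespace Pool.Agent.P.MP_a66f6f_co.NR

open Finset Ped Pos
open scoped symmDiff

namespace A1c

variable {N : ℕ} (I : Finset (Fin N)) (S : Fin N → Finset ℕ)

/-- the conflicts at a point -/
def cp (B : Finset ℕ) (x : ℕ) : ℕ := ∑ c ∈ I, if x ∈ S c then (S c ∩ B).card - 1 else 0

theorem sum_ite (B : Finset ℕ) (u : Fin N → ℕ) :
    ∑ x ∈ B, ∑ c ∈ I, (if x ∈ S c then u c else 0) = ∑ c ∈ I, (S c ∩ B).card * u c := by
  rw [sum_comm]
  refine sum_congr rfl fun c _ => ?_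
  rw [← sum_filter, sum_const, smul_eq_mul, filter_mem_eq_inter, inter_comm]

theorem sum_cp (B : Finset ℕ) : ∑ x ∈ B, cp I S B x = cf I S B := sum_ite I S B _

theorem cp_mono {B B' : Finset ℕ} (h : B' ⊆ B) (x : ℕ) : cp I S B' x ≤ cp I S B x :=
  sum_le_sum fun c _ => by
    have := card_le_card (inter_subset_inter_left h (s := S c))
    split_ifs <;> omega

theorem cf_erase {B : Finset ℕ} {x : ℕ} (h : x ∈ B) :
    cf I S (B.erase x) + cp I S B x ≤ cf I S B := by
  rw [cf, cf, cp, ← sum_add_distrib]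
  refine sum_le_sum fun c _ => ?_
  rw [inter_erase]
  split_ifs with d
  · rw [card_erase_of_mem (mem_inter.2 ⟨d, h⟩)]
    rcases (S c ∩ B).card with _ | _ | u
    · simp
    · simp
    · simp only [Nat.add_sub_cancel]; nlinarith
  · rw [erase_eq_of_notMem fun e => d (mem_inter.1 e).1]; simp

theorem sum_deg (B : Finset ℕ) : ∑ x ∈ B, deg I S x ≤ cov I S B + cf I S B := by
  simp only [deg, card_filter]
  rw [sum_ite, cov, card_filter, cf, ← sum_add_distrib]
  refine sum_le_sum fun c _ => ?_
  simp only [← card_pos]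
  rcases (S c ∩ B).card with _ | _ | u
  · simp
  · simp
  · simp only [Nat.add_sub_cancel]; split_ifs <;> nlinarith

end A1c

open A1c in
theorem p_A1 :
    S_A1 := by
  intro N q d G0 I S D g0 h1 h2 B
  induction B using Finset.strongInduction with
  | H B ih =>
    intro hB
    by_cases c : ∃ x ∈ B, deg I S x + 1 - q ≤ cp I S B x
    · obtain ⟨x, hx, c⟩ := c
      have a1 := ih _ (erase_ssubset hx) ((erase_subset _ _).trans hB)
      have a2 : (cf I S (B.erase x) + cp I S B x : ℝ) ≤ cf I S B := by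
        exact_mod_cast cf_erase I S hx
      have a3 : ((deg I S x + 1 - q : ℕ) : ℝ) ≤ cp I S B x := by exact_mod_cast c
      rw [← add_sum_erase _ _ hx]
      linarith
    push Not at c
    have a1 : B.card < d := by
      by_contra e
      obtain ⟨B', b1, b2⟩ := exists_subset_card_eq (not_lt.1 e)
      have b3 := h1 B' (b1.trans hB) b2
      have b4 := sum_deg I S B'
      have b5 : ∑ x ∈ B', (q + cp I S B' x) ≤ ∑ x ∈ B', deg I S x := sum_le_sum fun x hx => by
        have := c x (b1 hx)
        have := cp_mono I S b1 x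
        omega
      rw [sum_add_distrib, sum_cp, sum_const, b2, smul_eq_mul, mul_comm] at b5
      omega
    have a2 := h2 B hB a1
    have a3 : ∑ x ∈ B, (deg I S x + 1 - q + q) = ∑ x ∈ B, (deg I S x + 1) :=
      sum_congr rfl fun x hx => by have := c x hx; omega
    rw [sum_add_distrib, sum_add_distrib, sum_const, sum_const, smul_eq_mul, smul_eq_mul] at a3
    have a4 := sum_deg I S B
    have a5 : ∑ x ∈ B, (deg I S x + 1 - q) + B.card * q ≤ cov I S B + cf I S B + d := by omega
    have a6 : ∑ x ∈ B, ((deg I S x + 1 - q : ℕ) : ℝ) + B.card * q ≤ cov I S B + cf I S B + d := by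
      exact_mod_cast a5
    linarith

end Pool.Agent.P.MP_a66f6f_co.NR
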