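import Pool.Agent.P.MP_a66f6f_co.NR.Iface

/-! Step A2. -/

namespace Pool.Agent.P.MP_a66f6f_co.NR

open Finset Ped Pos
open scoped symmDiff

namespace A2c

variable {N : ℕ}

theorem cf_insert (I : Finset (Fin N)) (S : Fin N → Finset ℕ) {B : Finset ℕ} {x : ℕ} (h : x ∉ B) :
    cf I S (insert x B) = cf I S B + 2 * ∑ c ∈ I, if x ∈ S c then (S c ∩ B).card else 0 := by
  rw [cf, cf, mul_sum, ← sum_add_distrib]
  refine sum_congr rfl fun c _ => ?_
  split_ifs with d
  · rw [inter_insert_of_mem d, card_insert_of_notMem fun e => h (mem_inter.1 e).2]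
    rcases (S c ∩ B).card with _ | u
    · simp
    · simp only [Nat.add_sub_cancel]; ring
  · rw [inter_insert_of_notMem d]; simp

theorem part (I : Finset (Fin N)) (S : Fin N → Finset ℕ) (K : ℕ) (hK : 1 ≤ K) (D : Finset ℕ) :
    ∃ g : ℕ → ℕ, (∀ x, g x < K) ∧
      K * ∑ i ∈ range K, cf I S (D.filter fun x => g x = i) ≤ cf I S D := by
  induction D using Finset.induction_on with
  | empty => exact ⟨fun _ => 0, fun _ => hK, by simp [cf]⟩
  | insert x D hx ih =>
    obtain ⟨g, g1, g2⟩ := ih
    obtain ⟨i, hi, hm⟩ := exists_min_image (range K)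
      (fun i => ∑ c ∈ I, if x ∈ S c then (S c ∩ D.filter fun y => g y = i).card else 0)
      ⟨0, mem_range.2 hK⟩
    have a1 := card_nsmul_le_sum (range K) _ _ hm
    have a2 : ∑ i ∈ range K, ∑ c ∈ I,
        (if x ∈ S c then (S c ∩ D.filter fun y => g y = i).card else 0) =
        ∑ c ∈ I, if x ∈ S c then (S c ∩ D).card else 0 := by
      rw [sum_comm]
      refine sum_congr rfl fun c _ => ?_
      split_ifs
      · rw [card_eq_sum_card_fiberwise (f := g) (s := S c ∩ D) (t := range K)
          fun y _ => mem_coe.2 (mem_range.2 (g1 y))]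
        exact sum_congr rfl fun l _ => by rw [inter_filter]
      · simp
    rw [a2, card_range, smul_eq_mul] at a1
    refine ⟨Function.update g x i, fun y => ?_, ?_⟩
    · rw [Function.update_apply]
      split_ifs
      · exact mem_range.1 hi
      · exact g1 y
    have a3 : ∀ l, (insert x D).filter (fun y => Function.update g x i y = l) =
        if i = l then insert x (D.filter fun y => g y = l) else D.filter fun y => g y = l :=
      fun l => by
        rw [filter_insert, Function.update_self, filter_congr fun y hy => by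
          rw [Function.update_of_ne fun e : y = x => hx (e ▸ hy)]]
    have a4 : ∑ l ∈ range K, cf I S ((insert x D).filter fun y => Function.update g x i y = l) =
        ∑ l ∈ range K, cf I S (D.filter fun y => g y = l) +
        2 * ∑ c ∈ I, if x ∈ S c then (S c ∩ D.filter fun y => g y = i).card else 0 := by
      rw [← add_sum_erase _ _ hi, ← add_sum_erase _ _ hi, a3, if_pos rfl,
        cf_insert I S fun e => hx (mem_filter.1 e).1,
        sum_congr rfl fun l (hl : l ∈ (range K).erase i) => show cf I S ((insert x D).filter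
          fun y => Function.update g x i y = l) = cf I S (D.filter fun y => g y = l) by
          rw [a3, if_neg (mem_erase.1 hl).1.symm]]
      ring
    rw [a4, cf_insert I S hx, mul_add, mul_left_comm]
    omega

end A2c

theorem p_A2 :
    S_A2 := by
  intro N K D0 I S D w hK h
  obtain ⟨g, g1, g2⟩ := A2c.part I S K hK D
  have K0 : (0 : ℝ) < K := by exact_mod_cast hK
  rw [← sum_fiberwise_of_maps_to (g := g) (t := range K) fun y _ => mem_range.2 (g1 y)]
  refine (sum_le_sum fun i _ => h _ (filter_subset _ _)).trans ?_
  rw [sum_add_distrib, sum_const, card_range, nsmul_eq_mul]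
  refine add_le_add_right ?_ _
  rw [le_div_iff₀ K0, mul_comm]
  exact_mod_cast g2

end Pool.Agent.P.MP_a66f6f_co.NR
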