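import Pool.Agent.P.MP_a66f6f_co.NR.Iface

/-! Step AV. -/

namespace Pool.Agent.P.MP_a66f6f_co.NR

open Finset Ped Pos
open scoped symmDiff

theorem p_AV :
    S_AV := by
  classical
  intro m N n k j C h e
  have c0 : ∀ x : ℝ, ∑ _T ∈ (range j).powerset, x = 2 ^ j * x := fun x => by simp
  have a1 : ∑ σ : Equiv.Perm (Fin m), ∑ T ∈ (range j).powerset, ((C (xx σ j T)).card : ℝ) =
      fac m * (2 ^ j * cc C j) := by
    rw [sum_comm, sum_congr rfl (g := fun _ => fac m * cc C j) fun T _ => by
      have := cc_eq (C := C) (qq_sub e T)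
      rw [card_qq] at this
      exact this.symm, c0]
    ring
  refine ⟨a1, ?_, ?_⟩
  · rw [sum_comm, mul_left_comm, ← c0]
    refine sum_le_sum fun T _ => ?_
    have := Pos.avg (fun c : Fin N => Ins0 fun Y => c ∈ C Y) (qq_sub e T)
    rw [card_qq] at this
    rw [j0, this]
    refine sum_le_sum fun σ _ => Nat.cast_le.2 (card_le_card fun c hc => ?_)
    rw [mem_filter] at hc
    refine mem_filter.2 ⟨mem_univ _, ?_, fun i => ?_⟩
    · have := hc.1
      rwa [dual, compl_compl, mem_compl] at this
    · have := hc.2 i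
      rwa [dual, ← compl_insert, compl_compl, mem_compl] at this
  · unfold XX
    simp only [sum_sub_distrib]
    rw [a1]
    have a2 : ∑ σ : Equiv.Perm (Fin m), ∑ T ∈ (range j).powerset,
        (dr j (fun T => C (xx σ j T)) T : ℝ) ≤
        ∑ _T ∈ (range j).powerset, ∑ _t ∈ range j, fac m * (cc C (j + 1) - cc C j) := by
      rw [sum_comm]
      refine sum_le_sum fun T _ => ?_
      unfold dr
      push_cast
      rw [sum_comm]
      refine sum_le_sum fun t ht => ?_
      rw [mem_range] at ht
      rw [cc, cc, ← sum_sub_distrib, mul_sum]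
      have b1 := fun c : Fin N => cnt_piv (g := fun Y => c ∈ C Y) (fun _ _ d hc => h.mono _ _ d hc)
        (qq_sub e (T ∆ {t})) (ot_lt e (T ∆ {t}) ht) (ot_not _ ht)
      simp only [card_qq] at b1
      rw [← sum_congr rfl fun c _ => b1 c, sum_comm]
      refine sum_le_sum fun σ _ => ?_
      have b2 : ((C (xx σ j T) \ C (xx σ j (T ∆ {t}))).card : ℝ) =
          ∑ c, if c ∈ C (xx σ j T) \ C (xx σ j (T ∆ {t})) then 1 else 0 := by
        rw [sum_boole]
        congr 2
        ext c
        simp
      rw [b2]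
      refine sum_le_sum fun c _ => @ite_le _ _ (_) (_) fun d => ?_
      rw [mem_sdiff] at d
      refine ⟨d.2, h.mono _ _ (pull_mono σ ?_) d.1⟩
      have := flip_sub (j := j) (t := t) (T ∆ {t})
      rwa [ff] at this
    rw [c0, sum_const, card_range, nsmul_eq_mul] at a2
    linarith

end Pool.Agent.P.MP_a66f6f_co.NR
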