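import Pool.Agent.P.MP_a66f6f_co.NR.Iface

/-! Step AVG. -/

namespace Pool.Agent.P.MP_a66f6f_co.NR

open Finset Ped Pos
open scoped symmDiff

theorem p_AVG :
    S_AVG := by
  intro V ψ s u B G B0 G0 u0 hB h
  rcases V.eq_empty_or_nonempty with rfl | hV
  · simp
  have j0 : (0 : ℝ) < √(V.card : ℝ) := Real.sqrt_pos.2 (by exact_mod_cast card_pos.2 hV)
  obtain ⟨c, hc⟩ : ∃ c, c = G / √(V.card : ℝ) := ⟨_, rfl⟩
  have c0 : 0 < c := by rw [hc]; positivity
  have key : ∀ (i : ℕ) (W : Finset ℕ), W ⊆ V → W.card = i → (i : ℝ) * ψ ∅ ≤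
      i * ψ W + i * ∑ t ∈ W, s t + 2 * √(i : ℝ) / c * ∑ t ∈ W, u t + 2 * c * √(i : ℝ) * i * B := by
    intro i
    induction i with
    | zero => intro W _ _; simp
    | succ i ih =>
      intro W hW hi
      obtain ⟨x, hx⟩ : ∃ x, x = √(i : ℝ) := ⟨_, rfl⟩
      obtain ⟨y, hy⟩ : ∃ y, y = √((i + 1 : ℕ) : ℝ) := ⟨_, rfl⟩
      have x0 : 0 ≤ x := hx ▸ Real.sqrt_nonneg _
      have y0 : 0 < y := hy ▸ Real.sqrt_pos.2 (by positivity)
      have x2 : x ^ 2 = i := hx ▸ Real.sq_sqrt (by positivity)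
      have y2 : y ^ 2 = i + 1 := by rw [hy, Real.sq_sqrt (by positivity)]; push_cast; ring
      rw [← hx] at ih
      rw [← hy]
      have a0 : 2 * x * y + 1 ≤ 2 * y ^ 2 := by nlinarith [sq_nonneg (x - y)]
      have a1 := h W hW (c * y) (by positivity)
      rw [sum_sub_distrib, sum_const, hi, nsmul_eq_mul] at a1
      have U0 : 0 ≤ ∑ t ∈ W, u t := sum_nonneg fun t _ => u0 t
      have a2 : ((i + 1 : ℕ) : ℝ) * ψ ∅ ≤ ∑ t ∈ W, ψ (W.erase t) + i * ∑ t ∈ W, s t +
          2 * x / c * ∑ t ∈ W, u t + 2 * c * x * (i + 1) * B := by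
        rcases Nat.eq_zero_or_pos i with d | d
        · obtain ⟨t, rfl⟩ := card_eq_one.1 (by rw [hi, d])
          have : x = 0 := by rw [hx, d]; simp
          simp [d, this]
        have i0 : (0 : ℝ) < i := by exact_mod_cast d
        have b1 := sum_le_sum fun t (ht : t ∈ W) => ih (W.erase t)
          ((erase_subset _ _).trans hW) (by rw [card_erase_of_mem ht, hi]; rfl)
        have b2 : ∀ f : ℕ → ℝ, ∑ t ∈ W, ∑ v ∈ W.erase t, f v = i * ∑ t ∈ W, f t := fun f => by
          rw [sum_congr rfl fun t ht => sum_erase_eq_sub ht, sum_sub_distrib, sum_const, hi,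
            nsmul_eq_mul]
          push_cast
          ring
        simp only [sum_add_distrib, ← mul_sum, b2, sum_const, hi, nsmul_eq_mul] at b1
        refine le_of_mul_le_mul_left ?_ i0
        push_cast at b1 ⊢
        linarith
      have a3 : 2 * x / c + 1 / (c * y) ≤ 2 * y / c := by
        rw [div_add_div _ _ c0.ne' (by positivity), div_le_div_iff₀ (by positivity) c0]
        nlinarith [mul_le_mul_of_nonneg_left a0 (mul_pos c0 c0).le]
      have a4 : 2 * c * x * (i + 1) + c * y ≤ 2 * c * y * (i + 1) := by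
        rw [← y2]
        nlinarith [mul_le_mul_of_nonneg_left a0 (mul_pos c0 y0).le]
      have a5 := mul_le_mul_of_nonneg_right a3 U0
      have a6 := mul_le_mul_of_nonneg_right a4 B0
      rw [div_eq_mul_one_div (∑ t ∈ W, u t)] at a1
      push_cast at a1 a2 ⊢
      linarith
  have a1 := key V.card V Subset.rfl rfl
  have j1 : (0 : ℝ) < V.card := by exact_mod_cast card_pos.2 hV
  have a2 : 2 * √(V.card : ℝ) / c = V.card * (2 / G) := by
    rw [hc]
    field_simp
    exact Real.sq_sqrt j1.le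
  have a3 : 2 * c * √(V.card : ℝ) = 2 * G := by rw [hc]; field_simp
  have a4 : 2 * G * B ≤ 2 / G * ∑ t ∈ V, u t := by
    rw [div_mul_eq_mul_div, le_div_iff₀ G0]
    nlinarith
  rw [a2, a3] at a1
  refine le_of_mul_le_mul_left ?_ j1
  have a5 : 4 / G = 2 / G + 2 / G := by ring
  rw [a5]
  nlinarith [mul_le_mul_of_nonneg_left a4 j1.le]

end Pool.Agent.P.MP_a66f6f_co.NR
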