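import Pool.Agent.P.MP_a66f6f_co.NR.Iface

/-! Step BES. -/

namespace Pool.Agent.P.MP_a66f6f_co.NR

open Finset Ped Pos
open scoped symmDiff

namespace BESc

/-- the character of a direction -/
noncomputable def ch (t : ℕ) (U : Finset ℕ) : ℝ := if t ∈ U then -1 else 1

theorem orth {W : Finset ℕ} {t : ℕ} (ht : t ∈ W) (s : ℕ) :
    ∑ U ∈ W.powerset, ch t U * ch s U = if t = s then (2 : ℝ) ^ W.card else 0 := by
  split_ifs with h
  · subst h
    rw [sum_congr rfl (g := fun _ => (1 : ℝ)) fun U _ => by unfold ch; split_ifs <;> norm_num]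
    simp
  · refine sum_involution (fun U _ => U ∆ {t}) (fun U _ => ?_) (fun U _ _ e => ?_)
      (fun U hU => ?_) fun U _ => ff U t
    · have h' : ¬ s = t := fun e => h e.symm
      unfold ch
      by_cases a : t ∈ U <;> by_cases b : s ∈ U <;> simp [mem_symmDiff, a, b, h']
    · have : t ∈ U ∆ {t} ↔ t ∈ U := by rw [e]
      simp [mem_symmDiff] at this
    · rw [mem_powerset] at hU ⊢
      intro x hx
      rcases mem_symmDiff.1 hx with c | c
      · exact hU c.1
      · rw [mem_singleton.1 c.1]; exact ht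

theorem cor (g : Finset ℕ → ℝ) (W : Finset ℕ) (t : ℕ) :
    ∑ U ∈ W.powerset, g U * ch t U = 2 ^ W.card * bb g W t := by
  rw [bb, mul_div_cancel₀ _ (by positivity)]
  exact sum_congr rfl fun U _ => by unfold ch; split_ifs <;> ring

end BESc

theorem p_BES :
    S_BES := by
  intro g W hg
  have h1 : ∑ U ∈ W.powerset, g U * ∑ t ∈ W, bb g W t * BESc.ch t U =
      2 ^ W.card * ∑ t ∈ W, bb g W t ^ 2 := by
    simp only [mul_sum]
    rw [sum_comm]
    refine sum_congr rfl fun t _ => ?_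
    rw [sq, ← mul_assoc, ← BESc.cor, sum_mul]
    exact sum_congr rfl fun U _ => by ring
  have h2 : ∑ U ∈ W.powerset, (∑ t ∈ W, bb g W t * BESc.ch t U) ^ 2 =
      2 ^ W.card * ∑ t ∈ W, bb g W t ^ 2 := by
    simp only [sq, sum_mul_sum]
    rw [sum_comm, mul_sum]
    refine sum_congr rfl fun t ht => ?_
    rw [sum_comm, sum_congr rfl (g := fun s => bb g W t * bb g W s *
      if t = s then (2 : ℝ) ^ W.card else 0) fun s _ => by
        rw [← BESc.orth ht s, mul_sum]; exact sum_congr rfl fun U _ => by ring]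
    simp only [mul_ite, mul_zero, sum_ite_eq, ht, if_true]
    ring
  have h3 : ∑ U ∈ W.powerset, g U ^ 2 ≤ 2 ^ W.card := by
    simpa using sum_le_card_nsmul W.powerset (fun U => g U ^ 2) 1 fun U _ => hg U
  have h4 : 0 ≤ ∑ U ∈ W.powerset, (g U - ∑ t ∈ W, bb g W t * BESc.ch t U) ^ 2 :=
    sum_nonneg fun U _ => sq_nonneg _
  simp only [sub_sq, mul_assoc] at h4
  rw [sum_add_distrib, sum_sub_distrib, ← mul_sum, h1, h2] at h4
  have h5 : (0 : ℝ) < 2 ^ W.card := by positivity
  nlinarith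

end Pool.Agent.P.MP_a66f6f_co.NR
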