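import Pool.Agent.P.MP_a66f6f_co.NR.Iface

/-! Step C1. -/

namespace Pool.Agent.P.MP_a66f6f_co.NR

open Finset Ped Pos
open scoped symmDiff

namespace C1c

variable {N : ℕ}

theorem dl_le (j H : ℕ) (a : Finset ℕ → Finset (Fin N)) (T : Finset ℕ) {t : ℕ} (ht : t < j) :
    dl j H a T t ≤ deg ((a T).filter fun c => sn j a c T ≤ H)
      (fun c => (range j).filter fun t => c ∉ a (T ∆ {t})) t := by
  refine card_le_card fun c hc => ?_
  simp only [mem_filter, mem_sdiff, mem_range] at hc ⊢
  exact ⟨⟨hc.1.1, hc.2.1⟩, ht, hc.1.2⟩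

theorem cf_le (j H : ℕ) (a : Finset ℕ → Finset (Fin N)) (T : Finset ℕ) :
    cf ((a T).filter fun c => sn j a c T ≤ H)
      (fun c => (range j).filter fun t => c ∉ a (T ∆ {t})) (range j) ≤ H * MM j a T := by
  rw [MM, mul_sum, cf]
  refine le_trans (sum_le_sum fun c hc => ?_) (sum_le_sum_of_subset (subset_univ _))
  rw [mem_filter] at hc
  have e : (((range j).filter fun t => c ∉ a (T ∆ {t})) ∩ range j).card = sn j a c T := by
    rw [inter_eq_left.2 (filter_subset _ _), sn]
    congr 1
    refine filter_congr fun t _ => ?_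
    simp [mem_symmDiff, hc.1]
  rw [e]
  split_ifs with h
  · rw [mul_comm]
    exact Nat.mul_le_mul (by omega) le_rfl
  · have : sn j a c T - 1 = 0 := by omega
    rw [this]
    exact Nat.zero_le _

end C1c

theorem p_C1 (hIN : S_IN) :
    S_C1 := by
  intro m N n k q r d K j H F Z e T hG hk hn hK hC hH
  have h := hIN m N n k q r d K (rb F (Z T)) F (Z T) (range j) (e T)
    ((F (Z T)).filter fun c => sn j (fun U => F (Z U)) c T ≤ H)
    (fun c => (range j).filter fun t => c ∉ F (Z (T ∆ {t}))) hG hk hn hK (hC.card T) hH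
    (fun t ht => hC.mem T t (mem_range.1 ht))
    (fun t ht t' ht' => hC.inj T t t' (mem_range.1 ht) (mem_range.1 ht')) (filter_subset _ _)
    (fun c _ t ht hc h => (mem_filter.1 hc).2 (hG.mono _ _ (hC.sub T t (mem_range.1 ht)) h)) le_rfl
  refine le_trans (sum_le_sum fun t ht => ?_) (h.trans (add_le_add le_rfl ?_))
  · have := C1c.dl_le j H (fun U => F (Z U)) T (mem_range.1 ht)
    exact Nat.cast_le.2 (Nat.sub_le_sub_right (Nat.add_le_add_right this 1) q)
  · refine div_le_div_of_nonneg_right ?_ (Nat.cast_nonneg K)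
    exact_mod_cast C1c.cf_le j H (fun U => F (Z U)) T

end Pool.Agent.P.MP_a66f6f_co.NR
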