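import Pool.Agent.P.MP_a66f6f_co.NR.Iface

/-! Step C2. -/

namespace Pool.Agent.P.MP_a66f6f_co.NR

open Finset Ped Pos
open scoped symmDiff

namespace C2c

end C2c

theorem p_C2 :
    S_C2 := by
  intro m N n k sz j F Z e T hG hC
  have key : ∀ U c, (∀ i, c ∈ F ((Z U).erase i)) → ∀ t < j, c ∈ F (Z (U ∆ {t})) :=
    fun U c h t ht => hG.mono _ _ (hC.sub U t ht) (h _)
  refine ⟨card_le_card fun c hc => ?_, fun i hi => ?_⟩
  · obtain ⟨h1, h2⟩ := mem_filter.1 hc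
    refine mem_filter.2 ⟨h1, card_eq_zero.2 (filter_eq_empty_iff.2 fun t ht => ?_)⟩
    simp [mem_symmDiff, h1, key T c h2 t (mem_range.1 ht)]
  · refine le_trans (card_le_card (t := _ ∪ (range j).biUnion fun t =>
      (F (Z T) ∆ F (Z (T ∆ {t}))).filter fun c => 2 ≤ sn j (fun U => F (Z U)) c (T ∆ {t}))
      fun c hc => ?_) ((card_union_le _ _).trans (Nat.add_le_add_left card_biUnion_le _))
    obtain ⟨h1, h2⟩ := mem_filter.1 hc
    have h3 := key _ c h2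
    have h4 : c ∈ F (Z T) := by simpa only [ff] using h3 i hi
    by_cases h0 : sn j (fun U => F (Z U)) c T = 0
    · exact mem_union_left _ (mem_filter.2 ⟨h4, h0⟩)
    obtain ⟨t, ht⟩ := card_pos.1 (Nat.pos_of_ne_zero h0)
    obtain ⟨h5, h6⟩ := mem_filter.1 ht
    have h7 : c ∉ F (Z (T ∆ {t})) := by simpa [mem_symmDiff, h4] using h6
    have h8 : t ≠ i := fun e => h7 (e ▸ h1)
    refine mem_union_right _ (mem_biUnion.2 ⟨t, h5, mem_filter.2 ⟨h6, ?_⟩⟩)
    refine one_lt_card.2 ⟨t, mem_filter.2 ⟨h5, ?_⟩, i, mem_filter.2 ⟨mem_range.2 hi, ?_⟩, h8⟩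
    · simp only [ff, mem_symmDiff]
      exact Or.inr ⟨h4, h7⟩
    · simp only [fcomm T t i, mem_symmDiff]
      exact Or.inr ⟨h3 t (mem_range.1 h5), h7⟩

end Pool.Agent.P.MP_a66f6f_co.NR
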