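import Pool.Agent.P.MP_a66f6f_co.NR.Iface

/-! Step C3. -/

namespace Pool.Agent.P.MP_a66f6f_co.NR

open Finset Ped Pos
open scoped symmDiff

theorem p_C3 (hA0 : S_A0) (hC2 : S_C2) :
    S_C3 := by
  intro m N n k q r d j H x F Z e T hG hk hn hC hd hx hF t ht
  have hc : ((Z T).erase (e T t)).card + 1 = n + d := by
    rw [card_erase_add_one (hC.mem T t ht), hC.card]
  have h0 := hA0 m N n k q r F _ (Z T) hG hk hn (erase_subset (e T t) _) (by omega)
  have h2 : (rb F (Z T) : ℝ) ≤ uu j (fun U => F (Z U)) T := by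
    exact_mod_cast (hC2 m N n k _ j F Z e T hG hC).1
  have h3 : dl j H (fun U => F (Z U)) T t + (F ((Z T).erase (e T t))).card ≤ (F (Z T)).card := by
    rw [dl, ← card_union_of_disjoint]
    · refine card_le_card (union_subset ((filter_subset _ _).trans sdiff_subset) ?_)
      exact hG.mono _ _ (erase_subset _ _)
    · rw [disjoint_left]
      intro c h1 h2
      exact (mem_sdiff.1 (mem_filter.1 h1).1).2 (hG.mono _ _ (hC.sub T t ht) h2)
  have hc' : (((Z T).erase (e T t)).card : ℝ) = n + d - 1 := by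
    rw [eq_sub_iff_add_eq]; exact_mod_cast hc
  have h3' : (dl j H (fun U => F (Z U)) T t : ℝ) + (F ((Z T).erase (e T t))).card ≤
      (F (Z T)).card := by exact_mod_cast h3
  have hn' : (0 : ℝ) < n := by exact_mod_cast hn
  have hd' : (1 : ℝ) ≤ d := by exact_mod_cast hd
  rw [hc'] at h0
  have h4 : ((n : ℝ) + d - 1 - n) * (rb F (Z T) + r) / n ≤
      d * (uu j (fun U => F (Z U)) T + r) / n := by
    refine div_le_div_of_nonneg_right ?_ hn'.le
    exact mul_le_mul (by linarith) (by linarith) (by positivity) (by positivity)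
  unfold ex
  rcases le_total q (dl j H (fun U => F (Z U)) T t + 1) with h | h
  · rw [Nat.cast_sub h]; push_cast; linarith
  · rw [Nat.sub_eq_zero_of_le h, Nat.cast_zero]; positivity

end Pool.Agent.P.MP_a66f6f_co.NR
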