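import Pool.Agent.P.MP_a66f6f_co.NR.Iface

/-! Step C4. -/

namespace Pool.Agent.P.MP_a66f6f_co.NR

open Finset Ped Pos
open scoped symmDiff

namespace C4c

variable {N : ℕ} (j H : ℕ) (a : Finset ℕ → Finset (Fin N)) (T : Finset ℕ) (i : ℕ)

/-- the colours -/
def I : Finset (Fin N) := (a T ∩ a (T ∆ {i})).filter fun c => sn j a c T ≤ H

/-- the directions -/
def S (c : Fin N) : Finset ℕ := (range j).filter fun t => c ∉ a (T ∆ {t}) ∧ c ∉ a ((T ∆ {i}) ∆ {t})

theorem dl_le {t : ℕ} (ht : t < j) :
    dl j H a T t ≤ deg (I j H a T i) (S j a T i) t + e1 j H a T i t + e2 j H a T i t := by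
  refine le_trans (card_le_card fun c hc => ?_)
    ((card_union_le _ _).trans (Nat.add_le_add_right (card_union_le _ _) _))
  simp only [I, S, mem_union, mem_filter, mem_sdiff, mem_inter, mem_range, fcomm T t i] at hc ⊢
  tauto

theorem cf_le (D : Finset ℕ) : cf (I j H a T i) (S j a T i) D ≤ H * MM j a T := by
  rw [MM, mul_sum]
  refine le_trans (sum_le_sum fun c hc => ?_) (sum_le_sum_of_subset (subset_univ _))
  simp only [I, mem_filter, mem_inter] at hc
  have h : (S j a T i c ∩ D).card ≤ sn j a c T := card_le_card fun t ht => by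
    simp only [S, mem_filter, mem_inter, mem_symmDiff] at ht ⊢
    tauto
  split_ifs with h2
  · exact Nat.mul_le_mul (by omega) (by omega)
  · rw [show (S j a T i c ∩ D).card - 1 = 0 by omega, mul_zero, mul_zero]

end C4c

theorem p_C4 (hIN : S_IN) (hC2 : S_C2) :
    S_C4 := by
  intro m N n k q r d K j H F Z e T i hF hk hn hK hC hi hH
  have h := hIN m N n k q r d K (uu j (fun U => F (Z U)) T + QQ j (fun U => F (Z U)) T) F
    (Z (T ∆ {i})) ((range j).erase i) (e (T ∆ {i})) (C4c.I j H (fun U => F (Z U)) T i)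
    (C4c.S j (fun U => F (Z U)) T i) hF hk hn hK (hC.card _) hH
    (fun t ht => hC.mem _ t (mem_range.1 (mem_of_mem_erase ht)))
    (fun t ht t' ht' => hC.inj _ t t' (mem_range.1 (mem_of_mem_erase ht))
      (mem_range.1 (mem_of_mem_erase ht')))
    ((filter_subset _ _).trans inter_subset_right)
    (fun c _ t ht h1 h2 => (mem_filter.1 h1).2.2
      (hF.mono _ _ (hC.sub _ t (mem_range.1 (mem_of_mem_erase ht))) h2))
    (by exact_mod_cast (hC2 m N n k _ j F Z e T hF hC).2 i hi)
  have h1 : (cf _ _ ((range j).erase i) : ℝ) / K ≤ H * MM j (fun U => F (Z U)) T / K :=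
    div_le_div_of_nonneg_right (by exact_mod_cast C4c.cf_le j H _ T i _) K.cast_nonneg
  refine le_trans ?_ (add_le_add_left (h.trans (add_le_add_right h1 _)) _)
  rw [← sum_add_distrib]
  refine sum_le_sum fun t ht => ?_
  have h2 := C4c.dl_le j H (fun U => F (Z U)) T i (mem_range.1 (mem_of_mem_erase ht))
  norm_cast
  unfold ex
  omega

end Pool.Agent.P.MP_a66f6f_co.NR
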