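import Pool.Agent.P.MP_a66f6f_co.NR.Iface

/-! Step C5. -/

namespace Pool.Agent.P.MP_a66f6f_co.NR

open Finset Ped Pos
open scoped symmDiff

namespace C5c

theorem key {P S : Finset ℕ} {t H : ℕ} (ht : t ∈ P) (hS : S ⊆ P.erase t) (hH : P.card ≤ H) :
    S.card ≤ if 2 ≤ P.card then H else 0 := by
  have h := card_le_card hS
  rw [card_erase_of_mem ht] at h
  split_ifs <;> omega

theorem cf {N : ℕ} (A : Finset (Fin N)) (p : Fin N → Prop) [DecidablePred p] :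
    (A.filter p).card = ∑ c, if c ∈ A ∧ p c then 1 else 0 := by
  rw [← card_filter]
  congr 1
  ext c
  simp

end C5c

theorem p_C5 :
    S_C5 := by
  intro N j H a T
  constructor
  · simp only [e1, C5c.cf]
    rw [MM, mul_sum]
    simp only [sum_comm (t := (univ : Finset (Fin N)))]
    refine sum_le_sum fun c _ => ?_
    have h : ∀ i ∈ range j, (∑ t ∈ (range j).erase i, if c ∈ a T ∧ c ∉ a (T ∆ {t}) ∧
        c ∉ a (T ∆ {i}) ∧ sn j a c T ≤ H then 1 else 0) ≤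
        if c ∈ a T ∆ a (T ∆ {i}) then (if 2 ≤ sn j a c T then H else 0) else 0 := by
      intro i hi
      rw [← card_filter]
      rcases ((range j).erase i).filter (fun t => c ∈ a T ∧ c ∉ a (T ∆ {t}) ∧
        c ∉ a (T ∆ {i}) ∧ sn j a c T ≤ H) |>.eq_empty_or_nonempty with h | ⟨t, h⟩
      · rw [h]; simp
      · obtain ⟨-, h1, -, h3, h4⟩ := mem_filter.1 h
        have hc : c ∈ a T ∆ a (T ∆ {i}) := mem_symmDiff.2 (.inl ⟨h1, h3⟩)
        rw [if_pos hc]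
        refine C5c.key (t := i) (mem_filter.2 ⟨hi, hc⟩) (fun u hu => ?_) h4
        obtain ⟨hu, -, hu2, -⟩ := mem_filter.1 hu
        exact mem_erase.2 ⟨(mem_erase.1 hu).1, mem_filter.2 ⟨(mem_erase.1 hu).2,
          mem_symmDiff.2 (.inl ⟨h1, hu2⟩)⟩⟩
    refine (sum_le_sum h).trans ?_
    rw [← sum_filter, sum_const, smul_eq_mul]
    change sn j a c T * _ ≤ _
    split_ifs
    · exact (mul_comm _ _).le
    · simp
  · rw [sum_comm' (t' := range j) (s' := fun t => (range j).erase t) (by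
      intro x y
      simp only [mem_erase]
      exact ⟨fun h => ⟨⟨h.2.1.symm, h.1⟩, h.2.2⟩, fun h => ⟨h.1.2, h.1.1.symm, h.2⟩⟩)]
    rw [QQ, mul_sum]
    refine sum_le_sum fun t ht => ?_
    simp only [e2, C5c.cf]
    rw [sum_comm, mul_sum]
    refine sum_le_sum fun c _ => ?_
    rw [← card_filter]
    rcases ((range j).erase t).filter (fun i => c ∈ a T ∧ c ∉ a (T ∆ {t}) ∧
      c ∈ a ((T ∆ {t}) ∆ {i}) ∧ sn j a c (T ∆ {t}) ≤ H) |>.eq_empty_or_nonempty with h | ⟨i, h⟩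
    · rw [h]; simp
    · obtain ⟨-, h1, h2, -, h4⟩ := mem_filter.1 h
      have hc : c ∈ a T ∆ a (T ∆ {t}) := mem_symmDiff.2 (.inl ⟨h1, h2⟩)
      have hc' : c ∈ a (T ∆ {t}) ∆ a ((T ∆ {t}) ∆ {t}) := by
        rw [ff]; exact mem_symmDiff.2 (.inr ⟨h1, h2⟩)
      refine (C5c.key (t := t) (mem_filter.2 ⟨ht, hc'⟩) (fun u hu => ?_) h4).trans ?_
      · obtain ⟨hu, -, -, hu2, -⟩ := mem_filter.1 hu
        exact mem_erase.2 ⟨(mem_erase.1 hu).1, mem_filter.2 ⟨(mem_erase.1 hu).2,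
          mem_symmDiff.2 (.inr ⟨hu2, h2⟩)⟩⟩
      · change (if 2 ≤ sn j a c (T ∆ {t}) then H else 0) ≤ _
        by_cases h5 : 2 ≤ sn j a c (T ∆ {t}) <;> simp [hc, h5]

end Pool.Agent.P.MP_a66f6f_co.NR
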