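import Pool.Agent.P.MP_a66f6f_co.NR.Iface

/-! Step C6. -/

namespace Pool.Agent.P.MP_a66f6f_co.NR

open Finset Ped Pos
open scoped symmDiff

namespace C6c

theorem core (j K : ℕ) (J : Finset ℕ) (f E : ℕ → ℝ) (y B W : ℝ) (hK : 1 ≤ K) (hJ : J ⊆ range j)
    (hf : ∀ t, 0 ≤ f t) (hE : ∀ t, 0 ≤ E t) (hy : ∀ t < j, f t ≤ y)
    (h4 : ∀ i ∈ J, ∑ t ∈ (range j).erase i, f t ≤ B + E i) (hW : ∑ i ∈ range j, E i ≤ W)
    (hc : K ≤ J.card) : ∑ t ∈ J, f t ≤ y + B + W / K := by
  have hK' : (0 : ℝ) < K := by exact_mod_cast hK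
  have hc' : (K : ℝ) ≤ J.card := by exact_mod_cast hc
  have h1 : ∀ i ∈ J, ∑ t ∈ J, f t ≤ y + B + E i := by
    intro i hi
    have a1 : ∑ t ∈ J, f t ≤ ∑ t ∈ range j, f t :=
      sum_le_sum_of_subset_of_nonneg hJ fun t _ _ => hf t
    have a2 := add_sum_erase (range j) f (hJ hi)
    have a3 := hy i (mem_range.1 (hJ hi))
    have a4 := h4 i hi
    linarith
  have h2 := sum_le_sum h1
  rw [sum_const, nsmul_eq_mul, sum_add_distrib, sum_const, nsmul_eq_mul] at h2
  have h3 : ∑ i ∈ J, E i ≤ W :=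
    (sum_le_sum_of_subset_of_nonneg hJ fun t _ _ => hE t).trans hW
  have hW0 : 0 ≤ W := (sum_nonneg fun t _ => hE t).trans hW
  have h5 : W ≤ J.card * (W / K) := by
    calc W = K * (W / K) := by field_simp
      _ ≤ J.card * (W / K) := mul_le_mul_of_nonneg_right hc' (by positivity)
  have h6 : (J.card : ℝ) * ∑ t ∈ J, f t ≤ J.card * (y + B + W / K) := by
    rw [mul_add (J.card : ℝ) (y + B)]; linarith
  exact le_of_mul_le_mul_left h6 (by linarith)

end C6c

theorem p_C6 (hC3 : S_C3) (hC4 : S_C4) (hC5 : S_C5) :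
    S_C6 := by
  intro m N n k q r d K j H x F Z e T hG hk hn hK hCb hx hT
  set a : Finset ℕ → Finset (Fin N) := fun U => F (Z U) with ha
  set J := (range j).filter fun t => High F q r (Z (T ∆ {t})) with hJ
  have hK' : (0 : ℝ) < K := by exact_mod_cast hK
  have hn' : (0 : ℝ) < n := by exact_mod_cast hn
  rcases J.eq_empty_or_nonempty with h0 | ⟨t0, ht0⟩
  · rw [h0, sum_empty]; positivity
  have hd : 1 ≤ d := by
    by_contra hd
    have hd0 : d = 0 := by omega
    have h1 : High F q r (Z (T ∆ {t0})) := (mem_filter.1 ht0).2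
    have h2 := hCb.card (T ∆ {t0})
    rw [hd0, add_zero] at h2
    have h3 := hG.big _ h2
    unfold High at h1
    rw [h2] at h1
    omega
  set G : ℝ := d * (uu j a T + QQ j a T + r) / n with hGd
  have hG0 : 0 ≤ G := by positivity
  have h3 : ∀ t < j, (ex q j H a T t : ℝ) ≤ x + G := by
    intro t ht
    refine (hC3 m N n k q r d j H x F Z e T hG hk hn hCb hd hx hT t ht).trans ?_
    have : (d : ℝ) * (uu j a T + r) / n ≤ G := by
      rw [hGd]
      have : (0 : ℝ) ≤ QQ j a T := by positivity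
      gcongr
      linarith
    linarith
  have hJs : J ⊆ range j := filter_subset _ _
  have hM : (0 : ℝ) ≤ H * (2 * MM j a T + QQ j a T) / K := by positivity
  rcases le_total J.card K with hc | hc
  · have h1 : ∑ t ∈ J, (ex q j H a T t : ℝ) ≤ J.card * (x + G) := by
      rw [← nsmul_eq_mul]
      exact sum_le_card_nsmul _ _ _ fun t ht => h3 t (mem_range.1 (hJs ht))
    have hc' : (J.card : ℝ) ≤ K := by exact_mod_cast hc
    have h2 : (J.card : ℝ) * (x + G) ≤ (K + 1) * (x + G) :=
      mul_le_mul_of_nonneg_right (by linarith) (by linarith)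
    have h4 : (0 : ℝ) ≤ K * d := by positivity
    linarith
  · obtain ⟨c1, c2⟩ := hC5 N j H a T
    have c1' : ∑ i ∈ range j, ∑ t ∈ (range j).erase i, (e1 j H a T i t : ℝ) ≤ H * MM j a T := by
      exact_mod_cast c1
    have c2' : ∑ i ∈ range j, ∑ t ∈ (range j).erase i, (e2 j H a T i t : ℝ) ≤ H * QQ j a T := by
      exact_mod_cast c2
    have h1 := C6c.core j K J (fun t => (ex q j H a T t : ℝ))
      (fun i => ∑ t ∈ (range j).erase i, ((e1 j H a T i t : ℝ) + e2 j H a T i t)) (x + G)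
      (K * (d + G) + H * MM j a T / K) (H * MM j a T + H * QQ j a T) hK hJs
      (fun t => by positivity) (fun t => sum_nonneg fun _ _ => by positivity) h3
      (fun i hi => hC4 m N n k q r d K j H F Z e T i hG hk hn hK hCb (mem_range.1 (hJs hi))
        (mem_filter.1 hi).2)
      (by simp only [sum_add_distrib]; linarith) hc
    have h2 : (H : ℝ) * (2 * MM j a T + QQ j a T) / K =
        H * MM j a T / K + (H * MM j a T + H * QQ j a T) / K := by ring
    have h4 : (0 : ℝ) ≤ K * x := by positivity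
    rw [h2]
    linarith

end Pool.Agent.P.MP_a66f6f_co.NR
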