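import Pool.Agent.P.MP_a66f6f_co.NR.Iface

/-! Step CB. -/

namespace Pool.Agent.P.MP_a66f6f_co.NR

open Finset Ped Pos
open scoped symmDiff

theorem p_CB :
    S_CB := by
  intro m N n k j C σ h m1 e
  have it_lt : ∀ (T : Finset ℕ) t, t < j → it j T t < m := fun T t ht => by
    unfold it; split_ifs <;> omega
  have cx : ∀ T, (xx σ j T).card = j := fun T => by rw [xx, card_pull _ (qq_sub e T), card_qq]
  refine ⟨⟨h.mono, fun X => h.big X (subset_univ _)⟩, ⟨fun X Y d => compl_subset_compl.2
    (h.mono _ _ (compl_subset_compl.2 d)), fun X d => (h.big X (subset_univ _) d).trans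
    (card_le_card fun c hc => mem_compl.2
      (disjoint_left.1 (h.disj _ _ disjoint_compl_right) hc))⟩,
    ⟨fun T t => if d : t < j then σ.symm ⟨_, it_lt T t d⟩ else ⟨0, m1⟩, fun T t d => ?_,
      fun T t t' d d' => ?_, fun T t d => ?_, cx⟩,
    ⟨fun T t => if d : t < j then σ.symm ⟨_, ot_lt e T d⟩ else ⟨0, m1⟩, fun T t d => ?_,
      fun T t t' d d' => ?_, fun T t d => ?_, fun T => by rw [card_compl, cx, Fintype.card_fin]⟩,
    fun c => ?_⟩
  · rw [dif_pos d, xx, pull, mem_filter, Equiv.apply_symm_apply]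
    exact ⟨mem_univ _, mem_image.2 ⟨t, mem_range.2 d, rfl⟩⟩
  · rw [dif_pos d, dif_pos d']
    intro c
    have := congrArg Fin.val (σ.symm.injective c)
    simp only [it] at this
    split_ifs at this <;> omega
  · rw [dif_pos d, xx, ← pull_erase]
    exact pull_mono σ (sub_flip T)
  · rw [dif_pos d, mem_compl, xx, pull, mem_filter, Equiv.apply_symm_apply]
    exact fun c => ot_not T d c.2
  · rw [dif_pos d, dif_pos d']
    intro c
    have := congrArg Fin.val (σ.symm.injective c)
    simp only [ot] at this
    split_ifs at this <;> omega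
  · rw [dif_pos d, ← compl_insert, compl_subset_compl, xx, xx, ← pull_insert]
    exact pull_mono σ (flip_sub T)
  · have := half (g := fun Y => c ∈ C Y)
      (fun X Y c1 c2 d => disjoint_left.1 (h.disj _ _ d) c1 c2) j σ
    have a1 : (2 : ℝ) * al j (fun T => C (xx σ j T)) c ≤ 2 ^ j := by
      refine le_trans (le_of_eq ?_) this
      rw [al, card_filter]
      push_cast
      congr 1
      exact sum_congr rfl fun T _ => by unfold xx; congr
    exact_mod_cast a1

end Pool.Agent.P.MP_a66f6f_co.NR
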