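import Pool.Agent.P.MP_a66f6f_co.NR.Iface

/-! Step CUBE. -/

namespace Pool.Agent.P.MP_a66f6f_co.NR

open Finset Ped Pos
open scoped symmDiff

theorem p_CUBE (hEDGE : S_EDGE) (hRS : S_RS) (hKP2 : S_KP2) (hCB : S_CB) :
    S_CUBE := by
  intro m N n k q r s K G j C σ h hk n1 hr hq K1 G1 hm hN j1 j2
  obtain ⟨g1, g2, ⟨e, he⟩, ⟨e', he'⟩, hh⟩ := hCB m N n k j C σ h (by omega) j2
  obtain ⟨d, rfl⟩ := Nat.exists_eq_add_of_le j1
  obtain ⟨d', hd⟩ : ∃ d', s = d + d' := ⟨s - d, by omega⟩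
  have e1 : m - (n + d) = n + d' := by omega
  rw [e1] at he'
  have a1 := hEDGE m N n k q r d d' K (n + d) (G ^ 2) C (xx σ (n + d)) e e' g1 g2 hk n1 K1
    (by omega) hN he he'
  have a2 := hRS N (n + d) G (fun T => C (xx σ (n + d) T)) G1 hh
  obtain ⟨k1, k2, k3⟩ := hKP2 N (n + d) (fun T => C (xx σ (n + d) T)) hh
  generalize n + d = j at *
  obtain ⟨a, ha⟩ : ∃ a : Finset ℕ → Finset (Fin N), a = fun T => C (xx σ j T) := ⟨_, rfl⟩
  rw [← ha] at a1 k1 k2 k3 ⊢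
  have a3 : ∑ T ∈ (range j).powerset, ∑ t ∈ range j, (dl j (G ^ 2) a T t : ℝ) ≤
      2 ^ j * ((q - 1) * j) +
      ∑ T ∈ (range j).powerset, ∑ t ∈ range j, (ex q j (G ^ 2) a T t : ℝ) := by
    have b1 : (2 : ℝ) ^ j * ((q - 1) * j) =
        ∑ _T ∈ (range j).powerset, ∑ _t ∈ range j, ((q : ℝ) - 1) := by
      simp only [sum_const, card_powerset, card_range, nsmul_eq_mul]
      push_cast
      ring
    rw [b1, ← sum_add_distrib]
    refine sum_le_sum fun T _ => ?_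
    rw [← sum_add_distrib]
    refine sum_le_sum fun t _ => ?_
    have b2 : dl j (G ^ 2) a T t + 1 ≤ q + ex q j (G ^ 2) a T t := by unfold ex; omega
    have b3 : (dl j (G ^ 2) a T t + 1 : ℝ) ≤ q + ex q j (G ^ 2) a T t := by exact_mod_cast b2
    linarith
  have n0 : (0 : ℝ) < n := by exact_mod_cast n1
  have K0 : (1 : ℝ) ≤ K := by exact_mod_cast K1
  have G0 : (0 : ℝ) < G := by exact_mod_cast G1
  have r0 : (r : ℝ) ≤ n := by exact_mod_cast hr
  have s0 : (s : ℝ) = d + d' := by exact_mod_cast hd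
  have d0 : (0 : ℝ) ≤ d := Nat.cast_nonneg _
  have d1 : (0 : ℝ) ≤ d' := Nat.cast_nonneg _
  have a4 : ∀ T, (K * (d + d') + (2 * K + 1) * (d' * (rb (dual C) (xx σ j T)ᶜ + r) / n) +
      (K + 1) * (d * (uu j a T + QQ j a T + r) / n) +
      ((G ^ 2 : ℕ) : ℝ) * (3 * MM j a T + QQ j a T) / K : ℝ) ≤
      6 * K * s + 3 * K * s / n * rb (dual C) (xx σ j T)ᶜ +
      2 * K * s / n * (uu j a T + QQ j a T) + G ^ 2 / K * (3 * MM j a T + QQ j a T) := fun T => by
    have p0 : (0 : ℝ) ≤ rb (dual C) (xx σ j T)ᶜ := Nat.cast_nonneg _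
    have p1 : (0 : ℝ) ≤ uu j a T + QQ j a T := by positivity
    generalize (rb (dual C) (xx σ j T)ᶜ : ℝ) = p at p0 ⊢
    generalize (uu j a T + QQ j a T : ℝ) = u at p1 ⊢
    have r1 : (0 : ℝ) ≤ r := Nat.cast_nonneg _
    have b1 : d' * (p + r) / n ≤ s / n * p + s := by
      rw [div_le_iff₀ n0, add_mul, div_mul_eq_mul_div, div_mul_cancel₀ _ n0.ne', s0]
      nlinarith [mul_nonneg d0 p0, mul_le_mul_of_nonneg_left r0 d1, mul_nonneg d0 n0.le]
    have b2 : d * (u + r) / n ≤ s / n * u + s := by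
      rw [div_le_iff₀ n0, add_mul, div_mul_eq_mul_div, div_mul_cancel₀ _ n0.ne', s0]
      nlinarith [mul_nonneg d1 p1, mul_le_mul_of_nonneg_left r0 d0, mul_nonneg d1 n0.le]
    have b3 : (0 : ℝ) ≤ d' * (p + r) / n := by positivity
    have b4 : (0 : ℝ) ≤ d * (u + r) / n := by positivity
    have b5 := mul_le_mul (show 2 * (K : ℝ) + 1 ≤ 3 * K by linarith) b1 b3 (by linarith)
    have b6 := mul_le_mul (show (K : ℝ) + 1 ≤ 2 * K by linarith) b2 b4 (by linarith)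
    push_cast
    rw [← s0]
    have b7 : 3 * (K : ℝ) * s / n * p = 3 * K * (s / n * p) := by ring
    have b8 : 2 * (K : ℝ) * s / n * u = 2 * K * (s / n * u) := by ring
    have b9 : (G : ℝ) ^ 2 / K * (3 * MM j a T + QQ j a T) =
        G ^ 2 * (3 * MM j a T + QQ j a T) / K := by ring
    rw [b7, b8, b9]
    linarith
  have a5 := a1.trans (sum_le_sum fun T _ => a4 T)
  simp only [sum_add_distrib, ← mul_sum] at a5
  rw [sum_const, card_powerset, card_range, nsmul_eq_mul, k3] at a5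
  push_cast at a5
  have x0 : 0 ≤ XX j a := le_trans (sum_nonneg fun _ _ => Nat.cast_nonneg _) k1
  have c1 : (0 : ℝ) ≤ 2 * K * s / n := by positivity
  have c2 : (0 : ℝ) ≤ G ^ 2 / K := by positivity
  have c3 : (0 : ℝ) ≤ 2 / G := by positivity
  have f1 := mul_le_mul_of_nonneg_left (add_le_add k1 k2) c1
  have f2 := mul_le_mul_of_nonneg_left k2 c2
  have f3 := mul_le_mul_of_nonneg_left k2 c3
  rw [← ha] at a2
  simp only [ha] at a2 ⊢
  rw [← ha] at a2 ⊢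
  have f4 : (18 * K * s / n + 32 * G ^ 2 / K + 16 / G : ℝ) * XX j a =
      2 * K * s / n * (XX j a + 8 * XX j a) + 4 * (G ^ 2 / K * (8 * XX j a)) +
      2 / G * (8 * XX j a) := by ring
  rw [f4]
  linarith

end Pool.Agent.P.MP_a66f6f_co.NR
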