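import Pool.Agent.P.MP_a66f6f_co.NR.Iface

/-! Step EDGE. -/

namespace Pool.Agent.P.MP_a66f6f_co.NR

open Finset Ped Pos
open scoped symmDiff

namespace EDGEc

variable {N : ℕ}

theorem MM_c (j : ℕ) (a : Finset ℕ → Finset (Fin N)) (T : Finset ℕ) :
    MM j (fun U => (a U)ᶜ) T = MM j a T := by
  unfold MM
  simp only [sn_c]

theorem ex_c (q j H : ℕ) (a : Finset ℕ → Finset (Fin N)) (T : Finset ℕ) (t : ℕ) :
    ex q j H (fun U => (a U)ᶜ) (T ∆ {t}) t = ex q j H a T t := by
  unfold ex dl
  simp only [sn_c, ff]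
  congr 3
  ext c
  simp only [mem_filter, mem_sdiff, mem_compl]
  tauto

end EDGEc

open EDGEc in
theorem p_EDGE (hA0 : S_A0) (hC1 : S_C1) (hC6 : S_C6) :
    S_EDGE := by
  intro m N n k q r d d' K j H C Z e e' g1 g2 hk n1 K1 hm hN he he'
  have n0 : (0 : ℝ) < n := by exact_mod_cast n1
  have K0 : (0 : ℝ) < K := by exact_mod_cast K1
  have dd : ∀ T, dual C (Z T)ᶜ = (C (Z T))ᶜ := fun T => by rw [dual, compl_compl]
  have dc : ∀ T, (dual C (Z T)ᶜ).card + (C (Z T)).card = N := fun T => by
    rw [dd, add_comm, card_add_card_compl, Fintype.card_fin]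
  have a1 : ∀ T, ((C (Z T)).card + r + 1 : ℝ) ≤
      q * (n + d) + d' * (rb (dual C) (Z T)ᶜ + r) / n := fun T => by
    have b1 := hA0 m N n k q r (dual C) (Z T)ᶜ (Z T)ᶜ g2 hk n1 Subset.rfl (by rw [he'.card]; omega)
    rw [he'.card] at b1
    have b2 : ((dual C (Z T)ᶜ).card + (C (Z T)).card : ℝ) = N := by exact_mod_cast dc T
    have b3 : (N + 2 * r + 1 : ℝ) ≤ q * (2 * n + d + d') := by rw [hm] at hN; exact_mod_cast hN
    push_cast at b1
    rw [add_sub_cancel_left] at b1
    linarith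
  have a2 := fun T => hC6 m N n k q r d K j H _ C Z e T g1 hk n1 K1 he (by positivity) (a1 T)
  have a3 : ∀ T, (if High C q r (Z T) then 0 else
      ∑ t ∈ range j, (ex q j H (fun U => (C (Z U))ᶜ) T t : ℝ)) ≤
      K * (d' + d' * (rb (dual C) (Z T)ᶜ + r) / n) + H * MM j (fun U => C (Z U)) T / K := fun T => by
    split_ifs with c
    · positivity
    · have b1 := hC1 m N n k q r d' K j H (dual C) (fun U => (Z U)ᶜ) e' T g2 hk n1 K1 he' (by
        have b2 := dc T
        have b3 := he.card T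
        have b4 := he'.card T
        unfold High at c ⊢
        rw [b3] at c
        rw [b4]
        have b5 : q * m = q * (n + d) + q * (n + d') := by rw [hm]; ring
        omega)
      simp only [dd] at b1
      rwa [MM_c] at b1
  have a4 : ∑ T ∈ (range j).powerset, ∑ t ∈ range j, (ex q j H (fun U => C (Z U)) T t : ℝ) =
      ∑ T ∈ (range j).powerset, ∑ t ∈ (range j).filter fun t => High C q r (Z (T ∆ {t})),
        (ex q j H (fun U => C (Z U)) T t : ℝ) +
      ∑ T ∈ (range j).powerset, (if High C q r (Z T) then 0 else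
        ∑ t ∈ range j, (ex q j H (fun U => (C (Z U))ᶜ) T t : ℝ)) := by
    have b1 : ∑ T ∈ (range j).powerset, (if High C q r (Z T) then 0 else
        ∑ t ∈ range j, (ex q j H (fun U => (C (Z U))ᶜ) T t : ℝ)) =
        ∑ T ∈ (range j).powerset, ∑ t ∈ range j, (if High C q r (Z (T ∆ {t})) then 0 else
          (ex q j H (fun U => C (Z U)) T t : ℝ)) := by
      rw [sum_comm, sum_congr rfl (g := fun T => ∑ t ∈ range j, if High C q r (Z T) then 0 else
        (ex q j H (fun U => (C (Z U))ᶜ) T t : ℝ)) fun T _ => by split_ifs <;> simp, sum_comm]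
      refine sum_congr rfl fun t ht => ?_
      rw [← sum_fl (mem_range.1 ht)]
      refine sum_congr rfl fun T _ => ?_
      rw [ex_c]
    rw [b1, ← sum_add_distrib]
    refine sum_congr rfl fun T _ => ?_
    rw [sum_filter, ← sum_add_distrib]
    refine sum_congr rfl fun t _ => ?_
    split_ifs <;> simp
  rw [a4, ← sum_add_distrib]
  refine sum_le_sum fun T _ => (add_le_add (a2 T) (a3 T)).trans (le_of_eq ?_)
  ring

end Pool.Agent.P.MP_a66f6f_co.NR
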