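import Pool.Agent.P.MP_a66f6f_co.NR.Iface

/-! Step END. -/

namespace Pool.Agent.P.MP_a66f6f_co.NR

open Finset Ped Pos
open scoped symmDiff

theorem p_END :
    S_END := by
  intro n s b b1 bn h
  have b0 : (0 : ℝ) < b := by exact_mod_cast b1
  have bn' : (b : ℝ) ≤ n := by exact_mod_cast bn
  have h' : (10 : ℝ) ^ 9 * n ^ 3 * s < b ^ 4 := by exact_mod_cast h
  have s0 : (0 : ℝ) ≤ s := Nat.cast_nonneg _
  have n0 : (0 : ℝ) < n := by linarith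
  obtain ⟨G, hG⟩ : ∃ G : ℕ, G = ⌈144 * (n : ℝ) / b⌉₊ := ⟨_, rfl⟩
  have a1 : 144 * (n : ℝ) / b ≤ G := hG ▸ Nat.le_ceil _
  have a2 : (G : ℝ) < 144 * n / b + 1 := hG ▸ Nat.ceil_lt_add_one (by positivity)
  have a3 : (0 : ℝ) < G := lt_of_lt_of_le (by positivity) a1
  rw [div_le_iff₀ b0] at a1
  have a4 : (G : ℝ) * b ≤ 145 * n := by
    have := mul_lt_mul_of_pos_right a2 b0
    rw [add_mul, div_mul_cancel₀ _ b0.ne'] at this
    linarith
  refine ⟨G, by exact_mod_cast a3, ?_⟩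
  have a5 : 72 * (n : ℝ) / G ≤ b / 2 := by rw [div_le_iff₀ a3]; linarith
  have a6 : 48 * (G : ℝ) ^ 3 * s < b / 2 := by
    refine lt_of_mul_lt_mul_right ?_ (pow_pos b0 3).le
    have c1 : ((G : ℝ) * b) ^ 3 ≤ (145 * n) ^ 3 := pow_le_pow_left₀ (by positivity) a4 3
    have c2 := mul_le_mul_of_nonneg_right c1 s0
    have c3 : (0 : ℝ) ≤ n ^ 3 * s := by positivity
    nlinarith
  linarith

end Pool.Agent.P.MP_a66f6f_co.NR
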