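import Pool.Agent.P.MP_a66f6f_co.NR.Iface

/-! Step IN. -/

namespace Pool.Agent.P.MP_a66f6f_co.NR

open Finset Ped Pos
open scoped symmDiff

theorem p_IN (hA0 : S_A0) (hA1 : S_A1) (hA2 : S_A2) :
    S_IN := by
  intro m N n k q r d K p F Z D e I S g hk n1 K1 hZ hh e1 e2 hI hS hp
  have n0 : (0 : ℝ) < n := by exact_mod_cast n1
  have p0 : (0 : ℝ) ≤ rb F Z := Nat.cast_nonneg _
  have p1 : (0 : ℝ) ≤ p := p0.trans hp
  have a1 : ∀ B ⊆ D, (Z \ B.image e).card + B.card = n + d := fun B hB => by
    have b1 : (B.image e).card = B.card :=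
      card_image_of_injOn fun x hx y hy => e2 x (hB hx) y (hB hy)
    rw [← b1, card_sdiff_add_card_eq_card (image_subset_iff.2 fun x hx => e1 x (hB hx)), hZ]
  have a2 : ∀ B ⊆ D, cov I S B + (F (Z \ B.image e)).card ≤ (F Z).card := fun B hB => by
    rw [cov, ← card_union_of_disjoint]
    · exact card_le_card (union_subset ((filter_subset _ _).trans hI) (g.mono _ _ sdiff_subset))
    refine disjoint_left.2 fun c c1 c2 => ?_
    obtain ⟨c3, t, ht⟩ := mem_filter.1 c1
    rw [mem_inter] at ht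
    refine hS c c3 t (hB ht.2) ht.1 (g.mono _ _ ?_ c2)
    exact subset_erase.2 ⟨sdiff_subset, fun d => (mem_sdiff.1 d).2 (mem_image_of_mem _ ht.2)⟩
  unfold High at hh
  rw [hZ, mul_add] at hh
  refine hA2 N K _ I S D _ K1 (hA1 N q d (d * (p + r) / n) I S D (by positivity)
    (fun B hB c => ?_) fun B hB c => ?_)
  · have b1 := a1 B hB
    have b2 := a2 B hB
    have b3 := g.big (Z \ B.image e) (by omega)
    omega
  · have b1 := a1 B hB
    have b2 : (cov I S B + (F (Z \ B.image e)).card : ℝ) ≤ (F Z).card := by exact_mod_cast a2 B hB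
    have b3 := hA0 m N n k q r F (Z \ B.image e) Z g hk n1 sdiff_subset (by omega)
    have b4 : ((Z \ B.image e).card : ℝ) = n + d - B.card := by
      rw [eq_sub_iff_add_eq]; exact_mod_cast b1
    have b5 : ((F Z).card + r + 1 : ℝ) ≤ q * n + q * d := by exact_mod_cast hh
    have b6 : (B.card : ℝ) ≤ d := by exact_mod_cast c.le
    have b7 : (0 : ℝ) ≤ B.card := Nat.cast_nonneg _
    have b8 : (n + d - B.card - n : ℝ) * (rb F Z + r) / n ≤ d * (p + r) / n :=
      div_le_div_of_nonneg_right (mul_le_mul (by linarith) (by linarith) (by positivity)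
        (by linarith)) n0.le
    rw [b4] at b3
    linarith

end Pool.Agent.P.MP_a66f6f_co.NR
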