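import Pool.Agent.P.MP_a66f6f_co.NR.Iface

/-! Step KP. -/

namespace Pool.Agent.P.MP_a66f6f_co.NR

open Finset Ped Pos
open scoped symmDiff

namespace KPc

theorem one (j : ℕ) (A : Finset ℕ → Prop) [DecidablePred A] (s : Finset ℕ → ℕ)
    (hs : ∀ T, A T → hh (range j) A T = s T) {x : ℝ}
    (hx : x = ∑ T ∈ (range j).powerset, if A T then (1 : ℝ) else 0) :
    4 * x * (2 ^ j - x) ≤ 2 ^ j * (((∑ T ∈ (range j).powerset, if A T then s T else 0 : ℕ) : ℝ) +
      ((∑ T ∈ (range j).powerset, if A T ∧ s T ≠ 0 then 1 else 0 : ℕ) : ℝ)) := by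
  have h := kp (range j) A
  rw [card_range] at h
  have e1 : x = ∑ T ∈ (range j).powerset, @ite _ (A T) (Classical.propDecidable _) (1 : ℝ) 0 :=
    hx.trans (sum_congr rfl fun T _ => by congr)
  rw [← e1] at h
  refine h.trans (le_of_eq ?_)
  congr 1
  push_cast
  rw [← sum_add_distrib]
  refine sum_congr rfl fun T _ => ?_
  by_cases c : A T
  · rw [if_pos c, hs T c, ph_eq]
    by_cases d : s T = 0 <;> simp [c, d]
  · simp [c]

theorem bal {N : ℕ} (j : ℕ) (a : Finset ℕ → Finset (Fin N)) (c : Fin N) :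
    ∑ T ∈ (range j).powerset, (if c ∉ a T then sn j a c T else 0) =
      ∑ T ∈ (range j).powerset, (if c ∈ a T then sn j a c T else 0) := by
  have e1 : ∀ T, (if c ∉ a T then sn j a c T else 0) =
      ∑ t ∈ range j, if c ∉ a T ∧ c ∈ a (T ∆ {t}) then 1 else 0 := fun T => by
    by_cases d : c ∈ a T
    · simp [d]
    · rw [if_pos d, sn, card_filter]
      exact sum_congr rfl fun t _ => by simp [mem_symmDiff, d]
  have e2 : ∀ T, (if c ∈ a T then sn j a c T else 0) =
      ∑ t ∈ range j, if c ∉ a (T ∆ {t}) ∧ c ∈ a T then 1 else 0 := fun T => by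
    by_cases d : c ∈ a T
    · rw [if_pos d, sn, card_filter]
      exact sum_congr rfl fun t _ => by simp [mem_symmDiff, d]
    · simp [d]
  rw [sum_congr rfl fun T _ => e1 T, sum_congr rfl fun T _ => e2 T, sum_comm, sum_comm (t := range j)]
  refine sum_congr rfl fun t ht => ?_
  rw [← sum_fl (mem_range.1 ht)]
  exact sum_congr rfl fun T _ => by rw [ff]

end KPc

theorem p_KP :
    S_KP := by
  intro N j a c h
  obtain ⟨x, hx⟩ : ∃ x : ℝ, x = al j a c := ⟨_, rfl⟩
  have h' : 2 * x ≤ 2 ^ j := by rw [hx]; exact_mod_cast h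
  have x0 : 0 ≤ x := hx ▸ Nat.cast_nonneg _
  have hM : (0 : ℝ) < 2 ^ j := by positivity
  have ex : x = ∑ T ∈ (range j).powerset, if c ∈ a T then (1 : ℝ) else 0 := by
    rw [hx, al, card_filter]; push_cast; rfl
  have ey : 2 ^ j - x = ∑ T ∈ (range j).powerset, if c ∉ a T then (1 : ℝ) else 0 := by
    rw [sub_eq_iff_eq_add, ex, ← sum_add_distrib,
      sum_congr rfl fun T _ => (by by_cases d : c ∈ a T <;> simp [d] : _ = (1 : ℝ))]
    simp
  have k1 := KPc.one j (fun T => c ∈ a T) (sn j a c) (fun T d => by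
    unfold hh sn
    congr 1
    ext t
    simp [mem_symmDiff, d]) ex
  have k2 := KPc.one j (fun T => c ∉ a T) (sn j a c) (fun T d => by
    unfold hh sn
    congr 1
    ext t
    simp [mem_symmDiff, d]) ey
  rw [KPc.bal] at k2
  obtain ⟨E, hE⟩ : ∃ E, E = ∑ T ∈ (range j).powerset, if c ∈ a T then sn j a c T else 0 := ⟨_, rfl⟩
  obtain ⟨p, hp⟩ : ∃ p, p = ∑ T ∈ (range j).powerset,
    if c ∈ a T ∧ sn j a c T ≠ 0 then 1 else 0 := ⟨_, rfl⟩
  obtain ⟨q, hq⟩ : ∃ q, q = ∑ T ∈ (range j).powerset,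
    if c ∉ a T ∧ sn j a c T ≠ 0 then 1 else 0 := ⟨_, rfl⟩
  rw [← hE, ← hp] at k1
  rw [← hE, ← hq] at k2
  have l1 : 2 * al j a c ≤ E + p := by
    have : 2 * x ≤ E + p := le_of_mul_le_mul_left (by nlinarith) hM
    rw [hx] at this
    exact_mod_cast this
  have l2 : 2 * al j a c ≤ E + q := by
    have : 2 * x ≤ E + q := le_of_mul_le_mul_left (by nlinarith) hM
    rw [hx] at this
    exact_mod_cast this
  have l3 : ∑ T ∈ (range j).powerset, (if c ∈ a T ∧ sn j a c T = 0 then 1 else 0) + p =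
      al j a c := by
    rw [hp, ← sum_add_distrib, al, card_filter]
    refine sum_congr rfl fun T _ => ?_
    by_cases d : c ∈ a T <;> by_cases e : sn j a c T = 0 <;> simp [d, e]
  have l4 : ∑ T ∈ (range j).powerset, (if 2 ≤ sn j a c T then sn j a c T else 0) +
      (2 * p + 2 * q) ≤ 2 * E + 2 * E := by
    nth_rewrite 2 [hE]
    rw [← KPc.bal, hE, hp, hq]
    simp only [mul_sum, ← sum_add_distrib]
    refine sum_le_sum fun T _ => ?_
    by_cases d : c ∈ a T <;> simp only [d, not_true, not_false_iff, true_and, false_and, if_true,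
      if_false] <;> split_ifs <;> omega
  rw [← hE]
  omega

end Pool.Agent.P.MP_a66f6f_co.NR
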