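import Pool.Agent.P.MP_a66f6f_co.NR.Iface

/-! Step LEV. -/

namespace Pool.Agent.P.MP_a66f6f_co.NR

open Finset Ped Pos
open scoped symmDiff

theorem p_LEV (hLVN : S_LVN) :
    S_LEV := by
  intro m N n k q r s C h hk hr hm s2 sn hN
  have k1 : (k : ℝ) + r = q * n := by exact_mod_cast hk
  have N1 : (N : ℝ) + 2 * r + 1 ≤ q * m := by exact_mod_cast hN
  have m1 : (m : ℝ) = 2 * n + s := by exact_mod_cast hm
  have r1 : (r : ℝ) ≤ n := by exact_mod_cast hr
  have r0 : (0 : ℝ) ≤ r := Nat.cast_nonneg _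
  have s1 : (10 : ℝ) * s ≤ n := by exact_mod_cast sn
  have s0 : (2 : ℝ) ≤ s := by exact_mod_cast s2
  have p0 : ∀ j : ℕ, n ≤ j → (n : ℝ) ≤ j := fun j e => by exact_mod_cast e
  have p1 : ∀ j : ℕ, n ≤ j → (j : ℝ) * (q - cc C j / j) = q * j - cc C j := fun j e => by
    have : (0 : ℝ) < j := by linarith [p0 j e]
    field_simp
  have p2 : ∀ j : ℕ, n ≤ j → (j : ℝ) * (j + 1) * ((q - cc C j / j) -
      (q - cc C (j + 1) / (j + 1 : ℕ))) = j * cc C (j + 1) - (j + 1) * cc C j := fun j e => by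
    have : (0 : ℝ) < j := by linarith [p0 j e]
    push_cast
    field_simp
    ring
  have p3 : ∀ j : ℕ, 2 * j ≤ m → 0 ≤ j * cc C (j + 1) - (j + 1) * cc C j := fun j e =>
    le_trans (sum_nonneg fun c _ => den_nonneg _ _) (j1_le h e)
  obtain ⟨j, j1, j2, j3, j4⟩ := hLVN n s r (fun j => q - cc C j / j) (by omega) s2 (by
      rw [p1 n le_rfl]
      linarith [cc_base h (show n ≤ m by omega)]) (fun i d1 d2 => by
      have a1 := p3 i (by omega)
      have a2 := p0 i d1
      rw [← p2 i d1] at a1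
      exact sub_nonneg.1 (nonneg_of_mul_nonneg_right a1 (by nlinarith))) (by
      obtain ⟨i, hi⟩ : ∃ i, i = (2 * n + s) / 2 := ⟨_, rfl⟩
      rw [← hi, ← m1]
      have a1 := p0 i (by omega)
      have a2 := p1 i (by omega)
      refine le_of_mul_le_mul_left ?_ (show (0 : ℝ) < i by linarith)
      have a3 : (m : ℝ) * cc C i ≤ i * N := by
        rcases Nat.even_or_odd' m with ⟨l, c | c⟩
        · have c1 : (m : ℝ) = 2 * i := by exact_mod_cast (show m = 2 * i by omega)
          have := cc_add h (show i + i ≤ m by omega)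
          rw [Fintype.card_fin] at this
          nlinarith
        · have c1 : (m : ℝ) = 2 * i + 1 := by exact_mod_cast (show m = 2 * i + 1 by omega)
          have c2 := cc_add h (show i + (i + 1) ≤ m by omega)
          rw [Fintype.card_fin] at c2
          have c3 := p3 i (by omega)
          rw [c1]
          nlinarith [mul_le_mul_of_nonneg_left c2 (show (0 : ℝ) ≤ i by linarith)]
      nlinarith)
  rw [p2 j j1] at j4
  have a1 := p0 j j1
  have a2 := p1 j j1
  have a3 : n * (q * j - cc C j) ≤ r * j := by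
    rw [← a2]
    nlinarith [mul_le_mul_of_nonneg_left j3 (show (0 : ℝ) ≤ j by linarith)]
  refine ⟨j, j1, by omega, a3, by linarith, ?_⟩
  have a4 := j0_le h (j := j) (by omega) (by omega)
  rw [Fintype.card_fin] at a4
  have a5 := p3 j (by omega)
  have a6 : 2 * (j : ℝ) ≤ m := by exact_mod_cast (show 2 * j ≤ m by omega)
  generalize q - cc C j / j = z at j3 a2
  obtain ⟨X, hX⟩ : ∃ X, X = j * cc C (j + 1) - (j + 1) * cc C j := ⟨_, rfl⟩
  rw [← hX] at a4 a5 j4
  have b1 : 2 * ((m - j : ℝ) * (m - j - 1)) ≤ 3 * (j * (j - 1)) := by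
    have c1 : (m - j : ℝ) * (m - j - 1) ≤ (11 / 10 * n) * (11 / 10 * n - 1) :=
      mul_le_mul (by linarith) (by linarith) (by linarith) (by linarith)
    have c2 : (n : ℝ) * (n - 1) ≤ j * (j - 1) :=
      mul_le_mul a1 (by linarith) (by linarith) (by linarith)
    nlinarith
  have b2 : j0 C j - N + cc C j + (m - j) * (cc C (j + 1) - cc C j) ≤ 3 * X := by
    refine le_of_mul_le_mul_left ?_ (show (0 : ℝ) < j * (j - 1) by nlinarith)
    nlinarith [mul_le_mul_of_nonneg_right b1 a5]
  have b3 : q - z ≤ cc C (j + 1) - cc C j := by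
    refine le_of_mul_le_mul_left ?_ (show (0 : ℝ) < j by linarith)
    linarith
  have b4 := mul_le_mul_of_nonneg_left b3 (show (0 : ℝ) ≤ m - j by linarith)
  have b5 : (m : ℝ) * z ≤ 2 * r + s := by
    refine le_of_mul_le_mul_left ?_ (show (0 : ℝ) < n by linarith)
    nlinarith [mul_le_mul_of_nonneg_left j3 (show (0 : ℝ) ≤ m by linarith),
      mul_le_mul_of_nonneg_left r1 (show (0 : ℝ) ≤ s by linarith)]
  nlinarith

end Pool.Agent.P.MP_a66f6f_co.NR
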