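import Pool.Agent.P.MP_a66f6f_co.NR.Iface

/-! Step LOW. -/

namespace Pool.Agent.P.MP_a66f6f_co.NR

open Finset Ped Pos
open scoped symmDiff

theorem p_LOW (hCUBE : S_CUBE) (hAV : S_AV) (hLEV : S_LEV) (hEND : S_END) :
    S_LOW := by
  intro m N n k q r b s C h hk hb hq hm hs hbig
  by_contra hN
  have hN' : N + 2 * r + 1 ≤ q * m := by omega
  have b1 : 1 ≤ b := by
    rcases Nat.eq_zero_or_pos b with c | c
    · rw [c] at hbig; simp at hbig
    · exact c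
  have bn : b ≤ n := by omega
  have n1 : 1 ≤ n := by omega
  have sn : 10 * s ≤ n := by
    have a1 : b ^ 4 ≤ n ^ 4 := Nat.pow_le_pow_left bn 4
    have a2 : n ^ 3 * (10 ^ 9 * s) < n ^ 3 * n := by
      calc n ^ 3 * (10 ^ 9 * s) = 10 ^ 9 * n ^ 3 * s := by ring
        _ < n ^ 4 := lt_of_lt_of_le hbig a1
        _ = _ := by ring
    have := Nat.lt_of_mul_lt_mul_left a2
    omega
  obtain ⟨j, j1, j2, j3, j4, j5⟩ := hLEV m N n k q r s C h hk (by omega) hm hs sn hN'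
  obtain ⟨G, g1, g2⟩ := hEND n s b b1 bn hbig
  obtain ⟨v1, v2, v3⟩ := hAV m N n k j C h j2
  have K1 : 1 ≤ G ^ 3 := Nat.one_le_pow _ _ g1
  have a1 := sum_le_sum fun (σ : Equiv.Perm (Fin m)) (_ : σ ∈ univ) =>
    hCUBE m N n k q r s (G ^ 3) G j C σ h hk n1 (by omega) hq K1 g1 hm hN' j1 j2
  rw [sum_add_distrib, sum_add_distrib, ← mul_sum, ← mul_sum, ← mul_sum, sum_fac, v1] at a1
  have G0 : (0 : ℝ) < G := by exact_mod_cast g1
  have n0 : (0 : ℝ) < n := by exact_mod_cast n1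
  have s0 : (0 : ℝ) ≤ s := Nat.cast_nonneg _
  push_cast at a1
  have c1 : (0 : ℝ) ≤ 3 * (G : ℝ) ^ 3 * s / n := by positivity
  have c2 : (0 : ℝ) ≤ 18 * (G : ℝ) ^ 3 * s / n + 32 * (G : ℝ) ^ 2 / (G : ℝ) ^ 3 + 16 / G := by
    positivity
  have hp : (0 : ℝ) < fac m * 2 ^ j := mul_pos (fac_pos m) (by positivity)
  have a2 : cc C j ≤ (q - 1) * j + 6 * (G : ℝ) ^ 3 * s + 3 * (G : ℝ) ^ 3 * s / n * (5 * n) +
      (18 * (G : ℝ) ^ 3 * s / n + 32 * (G : ℝ) ^ 2 / (G : ℝ) ^ 3 + 16 / G) * (3 * n / 2) := by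
    refine le_of_mul_le_mul_left ?_ hp
    have d1 := mul_le_mul_of_nonneg_left (v2.trans (mul_le_mul_of_nonneg_left
      (mul_le_mul_of_nonneg_left j5 (by positivity)) (fac_pos m).le)) c1
    have d2 := mul_le_mul_of_nonneg_left (v3.trans (mul_le_mul_of_nonneg_left
      (mul_le_mul_of_nonneg_left (show _ ≤ 3 * (n : ℝ) / 2 by linarith) (by positivity))
      (fac_pos m).le)) c2
    linarith
  have a3 : 3 * (G : ℝ) ^ 3 * s / n * (5 * n) +
      (18 * (G : ℝ) ^ 3 * s / n + 32 * (G : ℝ) ^ 2 / (G : ℝ) ^ 3 + 16 / G) * (3 * n / 2) =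
      42 * (G : ℝ) ^ 3 * s + 72 * n / G := by
    field_simp
    ring
  have hb' : (b : ℝ) + r = n := by exact_mod_cast hb
  have j1' : (n : ℝ) ≤ j := by exact_mod_cast j1
  have b0 : (0 : ℝ) ≤ b := Nat.cast_nonneg _
  have a4 : (j : ℝ) - b < q * j - cc C j := by linarith
  nlinarith [mul_lt_mul_of_pos_left a4 n0, mul_le_mul_of_nonneg_left j1' b0]

end Pool.Agent.P.MP_a66f6f_co.NR
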