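import Pool.Agent.P.MP_a66f6f_co.NR.Iface

/-! Step MAIN. -/

namespace Pool.Agent.P.MP_a66f6f_co.NR

open Finset Ped Pos
open scoped symmDiff

theorem p_MAIN (hLOW : S_LOW) :
    S_MAIN := by
  intro n m a b hm hb h
  have b1 : 1 ≤ b := by
    rcases Nat.eq_zero_or_pos b with c | c
    · rw [c] at h; simp at h
    · exact c
  obtain ⟨s, rfl⟩ := Nat.exists_eq_add_of_le hm
  rw [Nat.add_sub_cancel_left] at h
  by_cases c1 : s = 1
  · subst c1
    refine stahl_sqrt n _ a b 1 hm hb ?_ (by simp; omega)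
    have a1 : b ^ 4 ≤ n ^ 4 := Nat.pow_le_pow_left hb 4
    have a2 : n ^ 3 * 10 ^ 9 < n ^ 3 * n := by
      calc n ^ 3 * 10 ^ 9 = 10 ^ 9 * n ^ 3 * 1 := by ring
        _ < n ^ 4 := lt_of_lt_of_le h a1
        _ = _ := by ring
    have := Nat.lt_of_mul_lt_mul_left a2
    omega
  refine ⟨hom_of_col (by omega) (Col.stahl _ n a b hm hb), ?_⟩
  rintro N ⟨f⟩
  obtain ⟨C, hC⟩ := sys_of_hom (by omega) f
  by_cases c0 : s = 0
  · subst c0
    obtain ⟨X, -, hX⟩ := exists_subset_card_eq (s := (univ : Finset (Fin (2 * n + 0)))) (n := n)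
      (by simp; omega)
    have a0 := card_add_card_compl X
    rw [Fintype.card_fin] at a0
    have a1 := hC.big X (subset_univ _) hX
    have a2 := hC.big Xᶜ (subset_univ _) (by omega)
    have a3 := card_add hC (disjoint_compl_right (a := X))
    rw [Fintype.card_fin] at a3
    have a4 : (a + 1) * (2 * n + 0) = 2 * (a * n) + 2 * n := by ring
    omega
  · have := hLOW _ N n _ (a + 1) (n - b) b s C hC (by rw [add_mul]; omega) (by omega) (by omega)
      rfl (by omega) h
    omega

end Pool.Agent.P.MP_a66f6f_co.NR
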