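import Pool.Agent.P.MP_a66f6f_co.NR.Iface

/-! Step PSI. -/

namespace Pool.Agent.P.MP_a66f6f_co.NR

open Finset Ped Pos
open scoped symmDiff

namespace PSIc

theorem ins {V : Finset ℕ} {t : ℕ} (h : t ∉ V) (f : Finset ℕ → ℝ) (T : Finset ℕ) :
    ∑ U ∈ V.powerset, f (T ∆ insert t U) = ∑ U ∈ V.powerset, f ((T ∆ {t}) ∆ U) := by
  refine sum_congr rfl fun U hU => ?_
  have hU' : t ∉ U := fun a => h (mem_powerset.1 hU a)
  rw [symmDiff_assoc]
  congr 2
  ext x
  simp only [mem_insert, mem_symmDiff, mem_singleton]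
  by_cases e : x = t
  · simp [e, hU']
  · simp [e]

theorem bbe {V : Finset ℕ} {t : ℕ} (h : t ∉ V) (f : Finset ℕ → ℝ) (T : Finset ℕ) :
    bb (fun U => f (T ∆ U)) (insert t V) t =
      (∑ U ∈ V.powerset, f (T ∆ U) - ∑ U ∈ V.powerset, f ((T ∆ {t}) ∆ U)) / 2 ^ (V.card + 1) := by
  rw [bb, sum_powerset_insert h, card_insert_of_notMem h, ← ins h, sub_eq_add_neg,
    ← sum_neg_distrib]
  congr 2
  · exact sum_congr rfl fun U hU => if_neg fun a => h (mem_powerset.1 hU a)
  · exact sum_congr rfl fun U _ => if_pos (mem_insert_self _ _)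

end PSIc

theorem p_PSI :
    S_PSI := by
  intro j f W t ht
  obtain ⟨V, h, rfl⟩ : ∃ V, t ∉ V ∧ W = insert t V :=
    ⟨W.erase t, notMem_erase _ _, (insert_erase ht).symm⟩
  have h1 : ∀ T, bb (fun U => f ((T ∆ {t}) ∆ U)) (insert t V) t =
      -bb (fun U => f (T ∆ U)) (insert t V) t := fun T => by
    rw [PSIc.bbe h, PSIc.bbe h, ff]; ring
  refine ⟨h1, fun hj => ?_⟩
  have h2 : ps j f V - ps j f (insert t V) =
      ∑ T ∈ (range j).powerset, f T * bb (fun U => f (T ∆ U)) (insert t V) t := by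
    rw [ps, ps, ← sum_sub_distrib]
    refine sum_congr rfl fun T _ => ?_
    rw [PSIc.bbe h, sum_powerset_insert h, card_insert_of_notMem h, PSIc.ins h]
    field_simp
    ring
  have h3 := sum_fl hj fun T => f T * bb (fun U => f (T ∆ U)) (insert t V) t
  simp only [h1, mul_neg, sum_neg_distrib] at h3
  rw [erase_insert h, h2]
  simp only [div_mul_eq_mul_div, sub_mul, ← sum_div, sum_sub_distrib]
  linarith

end Pool.Agent.P.MP_a66f6f_co.NR
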