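import Pool.Agent.P.MP_a66f6f_co.NR.Iface

/-! Step RS. -/

namespace Pool.Agent.P.MP_a66f6f_co.NR

open Finset Ped Pos
open scoped symmDiff

namespace RSc

variable {N : ℕ}

theorem sum_al (j : ℕ) (a : Finset ℕ → Finset (Fin N)) :
    ∑ c, al j a c = ∑ T ∈ (range j).powerset, (a T).card := by
  simp only [al, card_filter]
  rw [sum_comm]
  refine sum_congr rfl fun T _ => ?_
  rw [← card_filter]
  congr 1
  ext c
  simp

theorem sum_sm (j H : ℕ) (a : Finset ℕ → Finset (Fin N)) {t : ℕ} (ht : t < j) :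
    ∑ c, sm j H a c t = 2 * ∑ T ∈ (range j).powerset, dl j H a T t := by
  simp only [sm, card_filter]
  rw [sum_comm, two_mul]
  nth_rewrite 2 [← sum_fl ht fun T => dl j H a T t]
  rw [← sum_add_distrib]
  refine sum_congr rfl fun T _ => ?_
  rw [← card_filter, dl, dl, ff, ← card_union_of_disjoint]
  · congr 1
    ext c
    simp only [mem_filter, mem_univ, true_and, mem_union, mem_sdiff, mem_symmDiff]
    tauto
  · rw [disjoint_left]
    intro c h1 h2
    exact (mem_sdiff.1 (mem_filter.1 h1).1).2 (mem_sdiff.1 (mem_filter.1 h2).1).1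

theorem sum_bg (j H : ℕ) (a : Finset ℕ → Finset (Fin N)) (hH : 1 ≤ H) :
    ∑ c, ∑ t ∈ range j, bg j H a c t ≤ ∑ T ∈ (range j).powerset, MM j a T := by
  simp only [bg, card_filter, MM]
  rw [sum_comm (s := (range j).powerset)]
  refine sum_le_sum fun c _ => ?_
  rw [sum_comm]
  refine sum_le_sum fun T _ => ?_
  by_cases h : H < sn j a c T
  · rw [if_pos (by omega)]
    simp only [h, true_and]
    rw [← card_filter]
    exact le_rfl
  · simp [h]

end RSc

theorem p_RS (hRT : S_RT) :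
    S_RS := by
  intro N j G a hG hc
  have h1 : ∀ c, 2 * (al j a c : ℝ) ≤ ∑ t ∈ range j, (sm j (G ^ 2) a c t : ℝ) +
      4 / G * ∑ t ∈ range j, (bg j (G ^ 2) a c t : ℝ) := fun c => by
    have h2 := hRT N j G a c hG
    have h3 : 2 * (al j a c : ℝ) ≤ 2 ^ j := by exact_mod_cast hc c
    have h4 : (0 : ℝ) ≤ al j a c := Nat.cast_nonneg _
    refine le_of_mul_le_mul_left (a := 2 ^ j) (le_trans ?_ h2) (by positivity)
    nlinarith [mul_nonneg h4 (sub_nonneg.2 h3)]
  have h2 := sum_le_sum fun c (_ : c ∈ univ) => h1 c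
  rw [sum_add_distrib, ← mul_sum, ← mul_sum, sum_comm] at h2
  have e1 : ∑ c, (al j a c : ℝ) = ∑ T ∈ (range j).powerset, ((a T).card : ℝ) := by
    exact_mod_cast RSc.sum_al j a
  have e2 : ∑ t ∈ range j, ∑ c, (sm j (G ^ 2) a c t : ℝ) =
      2 * ∑ T ∈ (range j).powerset, ∑ t ∈ range j, (dl j (G ^ 2) a T t : ℝ) := by
    rw [sum_comm (s := (range j).powerset), mul_sum]
    refine sum_congr rfl fun t ht => ?_
    exact_mod_cast RSc.sum_sm j (G ^ 2) a (mem_range.1 ht)
  have e3 : ∑ c, ∑ t ∈ range j, (bg j (G ^ 2) a c t : ℝ) ≤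
      ∑ T ∈ (range j).powerset, (MM j a T : ℝ) := by
    exact_mod_cast RSc.sum_bg j (G ^ 2) a (Nat.one_le_pow _ _ hG)
  have e4 := mul_le_mul_of_nonneg_left e3 (show (0 : ℝ) ≤ 4 / G by positivity)
  rw [e1, e2] at h2
  have e5 : (4 : ℝ) / G = 2 * (2 / G) := by ring
  rw [e5] at h2 e4
  linarith

end Pool.Agent.P.MP_a66f6f_co.NR
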