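import Pool.Agent.P.MP_a66f6f_co.NR.Iface

/-! Step RT. -/

namespace Pool.Agent.P.MP_a66f6f_co.NR

open Finset Ped Pos
open scoped symmDiff

namespace RTc

theorem sum_sd (j : ℕ) (f : Finset ℕ → ℝ) {T : Finset ℕ} (hT : T ∈ (range j).powerset) :
    ∑ U ∈ (range j).powerset, f (T ∆ U) = ∑ U ∈ (range j).powerset, f U := by
  have h : ∀ U ∈ (range j).powerset, T ∆ U ∈ (range j).powerset := by
    intro U hU
    rw [mem_powerset] at hT hU ⊢
    intro x hx
    rcases mem_symmDiff.1 hx with c | c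
    · exact hT c.1
    · exact hU c.1
  exact sum_bij' (fun U _ => T ∆ U) (fun U _ => T ∆ U) h h
    (fun U _ => symmDiff_symmDiff_cancel_left T U) (fun U _ => symmDiff_symmDiff_cancel_left T U)
    fun _ _ => rfl

theorem nb_le {N : ℕ} (j H : ℕ) (a : Finset ℕ → Finset (Fin N)) (c : Fin N) :
    H * nb j H a c ≤ ∑ t ∈ range j, bg j H a c t := by
  unfold nb bg
  have h1 : ∑ t ∈ range j, ((range j).powerset.filter fun T =>
      H < sn j a c T ∧ c ∈ a T ∆ a (T ∆ {t})).card =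
      ∑ T ∈ (range j).powerset.filter fun T => H < sn j a c T, sn j a c T := by
    simp only [card_filter]
    rw [sum_comm, sum_filter]
    refine sum_congr rfl fun T _ => ?_
    by_cases h : H < sn j a c T
    · simp only [h, true_and, if_true]
      unfold sn
      rw [card_filter]
    · simp [h]
  rw [h1, mul_comm, ← smul_eq_mul]
  exact card_nsmul_le_sum _ _ _ fun T hT => (mem_filter.1 hT).2.le

theorem sum_sg {N : ℕ} (j : ℕ) (a : Finset ℕ → Finset (Fin N)) (c : Fin N) :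
    ∑ T ∈ (range j).powerset, sg a c T = 2 * (al j a c : ℝ) - 2 ^ j := by
  have h : ∀ T, sg a c T = 2 * (if c ∈ a T then (1 : ℝ) else 0) - 1 := by
    intro T
    unfold sg
    split_ifs <;> norm_num
  simp only [h]
  rw [sum_sub_distrib, ← mul_sum, sum_boole]
  unfold al
  simp

theorem ps_empty {N : ℕ} (j : ℕ) (a : Finset ℕ → Finset (Fin N)) (c : Fin N) :
    ps j (sg a c) ∅ = 2 ^ j := by
  unfold ps
  have h : ∀ T ∈ (range j).powerset, sg a c T * ((∑ U ∈ (∅ : Finset ℕ).powerset,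
      sg a c (T ∆ U)) / 2 ^ (∅ : Finset ℕ).card) = 1 := by
    intro T _
    have e : T ∆ (∅ : Finset ℕ) = T := symmDiff_bot T
    rw [powerset_empty, sum_singleton, e]
    unfold sg
    split_ifs <;> norm_num
  rw [sum_congr rfl h]
  simp

theorem ps_full (j : ℕ) (f : Finset ℕ → ℝ) :
    ps j f (range j) = (∑ T ∈ (range j).powerset, f T) ^ 2 / 2 ^ j := by
  unfold ps
  rw [sum_congr rfl fun T hT => by rw [sum_sd j f hT], ← sum_mul, card_range]
  ring

end RTc

theorem p_RT (hSTEP : S_STEP) (hAVG : S_AVG) :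
    S_RT := by
  intro N j G a c hG
  have hG' : (0 : ℝ) < G := by exact_mod_cast hG
  have h := hAVG (range j) (ps j (sg a c)) (fun t => (sm j (G ^ 2) a c t : ℝ))
    (fun t => (bg j (G ^ 2) a c t : ℝ)) (nb j (G ^ 2) a c) G (Nat.cast_nonneg _) hG'
    (fun _ => Nat.cast_nonneg _) (by exact_mod_cast RTc.nb_le j (G ^ 2) a c)
    (fun W hW l hl => hSTEP N j (G ^ 2) a c W l hW hl)
  rw [RTc.ps_empty, RTc.ps_full, RTc.sum_sg] at h
  have h2 : (0 : ℝ) < 2 ^ j := by positivity
  have h3 := mul_le_mul_of_nonneg_left h h2.le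
  have e : (2 : ℝ) ^ j * (2 ^ j - (2 * (al j a c : ℝ) - 2 ^ j) ^ 2 / 2 ^ j) =
      4 * (al j a c : ℝ) * (2 ^ j - al j a c) := by
    field_simp
    ring
  rw [e] at h3
  exact h3

end Pool.Agent.P.MP_a66f6f_co.NR
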