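import Pool.Agent.P.MP_a66f6f_co.NR.Iface

/-! Step STEP. -/

namespace Pool.Agent.P.MP_a66f6f_co.NR

open Finset Ped Pos
open scoped symmDiff

namespace STEPc

theorem term (p q s s' : Prop) [Decidable p] [Decidable q] [Decidable s] [Decidable s']
    (D : Prop) [Decidable D] (hD : D ↔ ¬(p ↔ q)) {b l : ℝ} (hb : b ^ 2 ≤ 1) (hl : 0 < l) :
    ((if p then 1 else -1) - (if q then 1 else -1)) / 2 * b ≤
      (if D ∧ ¬s ∧ ¬s' then 1 else 0) +
      ((if s then l * b ^ 2 else 0) + (if s ∧ D then 1 else 0) / l) / 2 +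
      ((if s' then l * b ^ 2 else 0) + (if s' ∧ D then 1 else 0) / l) / 2 := by
  have h0 : 0 ≤ l * b ^ 2 := by positivity
  have h1 : 0 < l⁻¹ := by positivity
  have h2 : ∀ x : ℝ, 2 * x ≤ l * x ^ 2 + l⁻¹ := fun x => by
    have : l * x ^ 2 + l⁻¹ - 2 * x = (l * x - 1) ^ 2 / l := by field_simp; ring
    have : 0 ≤ (l * x - 1) ^ 2 / l := by positivity
    linarith
  have h3 := h2 b
  have h4 := h2 (-b)
  rw [neg_sq] at h4
  have h5 := abs_le.1 ((sq_le_one_iff_abs_le_one b).1 hb)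
  by_cases p <;> by_cases q <;> by_cases s <;> by_cases s' <;> simp [*] <;> linarith

end STEPc

theorem p_STEP (hBES : S_BES) (hPSI : S_PSI) :
    S_STEP := by
  intro N j H a c W l hW hl
  have hB : ∀ T, ∑ t ∈ W, bb (fun U => sg a c (T ∆ U)) W t ^ 2 ≤ 1 := fun T =>
    hBES _ W fun U => by unfold sg; split_ifs <;> norm_num
  let g : ℕ → Finset ℕ → ℝ := fun t T =>
    (if H < sn j a c T then l * bb (fun U => sg a c (T ∆ U)) W t ^ 2 else 0) +
      (if H < sn j a c T ∧ c ∈ a T ∆ a (T ∆ {t}) then 1 else 0) / l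
  have h1 : ∀ t ∈ W, ps j (sg a c) (W.erase t) - ps j (sg a c) W ≤
      sm j H a c t + ∑ T ∈ (range j).powerset, g t T := fun t ht => by
    have hj := mem_range.1 (hW ht)
    have e : ∑ T ∈ (range j).powerset, g t T = ∑ T ∈ (range j).powerset,
        (g t T / 2 + g t (T ∆ {t}) / 2) := by
      symm
      rw [sum_add_distrib, sum_fl hj fun T => g t T / 2, ← sum_add_distrib]
      exact sum_congr rfl fun T _ => add_halves _
    rw [(hPSI j _ W t ht).2 hj, e, sm, card_filter, Nat.cast_sum, ← sum_add_distrib]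
    refine sum_le_sum fun T _ => ?_
    have := STEPc.term (c ∈ a T) (c ∈ a (T ∆ {t})) (H < sn j a c T) (H < sn j a c (T ∆ {t}))
      (c ∈ a T ∆ a (T ∆ {t})) (by rw [mem_symmDiff]; tauto)
      ((single_le_sum (fun _ _ => sq_nonneg _) ht).trans (hB T)) hl
    simp only [g, (hPSI j _ W t ht).1 T, ff, neg_sq, symmDiff_comm (a (T ∆ {t})) (a T)]
    simp only [not_lt] at this
    rw [← add_assoc]
    push_cast
    exact this
  refine (sum_le_sum h1).trans ?_
  simp only [g, sum_add_distrib, add_assoc, ← sum_div, bg, nb, card_filter, Nat.cast_sum]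
  push_cast
  gcongr
  rw [sum_comm, mul_sum]
  refine sum_le_sum fun T _ => ?_
  split_ifs
  · rw [← mul_sum]; exact mul_le_mul_of_nonneg_left (hB T) hl.le
  · simp

end Pool.Agent.P.MP_a66f6f_co.NR
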