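import Pool.Agent.P.MP_a66f6f_co.NR.TA0
import Pool.Agent.P.MP_a66f6f_co.NR.TA1
import Pool.Agent.P.MP_a66f6f_co.NR.TA2
import Pool.Agent.P.MP_a66f6f_co.NR.TIN
import Pool.Agent.P.MP_a66f6f_co.NR.TC1
import Pool.Agent.P.MP_a66f6f_co.NR.TC2
import Pool.Agent.P.MP_a66f6f_co.NR.TC3
import Pool.Agent.P.MP_a66f6f_co.NR.TC4
import Pool.Agent.P.MP_a66f6f_co.NR.TC5
import Pool.Agent.P.MP_a66f6f_co.NR.TC6
import Pool.Agent.P.MP_a66f6f_co.NR.TKP
import Pool.Agent.P.MP_a66f6f_co.NR.TKP2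
import Pool.Agent.P.MP_a66f6f_co.NR.TBES
import Pool.Agent.P.MP_a66f6f_co.NR.TPSI
import Pool.Agent.P.MP_a66f6f_co.NR.TSTEP
import Pool.Agent.P.MP_a66f6f_co.NR.TAVG
import Pool.Agent.P.MP_a66f6f_co.NR.TRT
import Pool.Agent.P.MP_a66f6f_co.NR.TRS
import Pool.Agent.P.MP_a66f6f_co.NR.TCB
import Pool.Agent.P.MP_a66f6f_co.NR.TEDGE
import Pool.Agent.P.MP_a66f6f_co.NR.TCUBE
import Pool.Agent.P.MP_a66f6f_co.NR.TAV
import Pool.Agent.P.MP_a66f6f_co.NR.TLVN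
import Pool.Agent.P.MP_a66f6f_co.NR.TLEV
import Pool.Agent.P.MP_a66f6f_co.NR.TEND
import Pool.Agent.P.MP_a66f6f_co.NR.TLOW
import Pool.Agent.P.MP_a66f6f_co.NR.TMAIN

/-!
Assembly of the steps for the range near the diagonal.
-/

namespace Pool.Agent.P.MP_a66f6f_co.NR

theorem q_A0 : S_A0 := p_A0

theorem q_A1 : S_A1 := p_A1

theorem q_A2 : S_A2 := p_A2

theorem q_IN : S_IN := p_IN q_A0 q_A1 q_A2

theorem q_C1 : S_C1 := p_C1 q_IN

theorem q_C2 : S_C2 := p_C2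

theorem q_C3 : S_C3 := p_C3 q_A0 q_C2

theorem q_C4 : S_C4 := p_C4 q_IN q_C2

theorem q_C5 : S_C5 := p_C5

theorem q_C6 : S_C6 := p_C6 q_C3 q_C4 q_C5

theorem q_KP : S_KP := p_KP

theorem q_KP2 : S_KP2 := p_KP2 q_KP

theorem q_BES : S_BES := p_BES

theorem q_PSI : S_PSI := p_PSI

theorem q_STEP : S_STEP := p_STEP q_BES q_PSI

theorem q_AVG : S_AVG := p_AVG

theorem q_RT : S_RT := p_RT q_STEP q_AVG

theorem q_RS : S_RS := p_RS q_RT

theorem q_CB : S_CB := p_CB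

theorem q_EDGE : S_EDGE := p_EDGE q_A0 q_C1 q_C6

theorem q_CUBE : S_CUBE := p_CUBE q_EDGE q_RS q_KP2 q_CB

theorem q_AV : S_AV := p_AV

theorem q_LVN : S_LVN := p_LVN

theorem q_LEV : S_LEV := p_LEV q_LVN

theorem q_END : S_END := p_END

theorem q_LOW : S_LOW := p_LOW q_CUBE q_AV q_LEV q_END

theorem q_MAIN : S_MAIN := p_MAIN q_LOW

open Finset Ped in
/-- the lower bound for systems with colours in any finite type -/
theorem lower_any {β : Type*} [DecidableEq β] [Fintype β] {m n k q r b s : ℕ}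
    {C : Finset (Fin m) → Finset β} (h : Sys C univ n k) (hk : k + r = q * n) (hb : b + r = n)
    (hq : 1 ≤ q) (hm : m = 2 * n + s) (hs : 2 ≤ s) (e : 10 ^ 9 * n ^ 3 * s < b ^ 4) :
    q * m ≤ Fintype.card β + 2 * r :=
  q_LOW m _ n k q r b s (fun X => (C X).map (Fintype.equivFin β).toEmbedding)
    ⟨fun X Y d => map_subset_map.2 (h.mono X Y d),
      fun X Y d => (disjoint_map _).2 (h.disj X Y d),
      fun X d1 d2 => by rw [card_map]; exact h.big X d1 d2⟩ hk hb hq hm hs e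

end Pool.Agent.P.MP_a66f6f_co.NR
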