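import Pool.Agent.P.MP_a66f6f_co.Pos.Main

/-!
Definitions for the range near the diagonal.
-/

namespace Pool.Agent.P.MP_a66f6f_co.NR

open Finset
open scoped symmDiff

variable {m N : ℕ}

/-- monotone, and every `n`-set has at least `k` colours -/
structure Good (F : Finset (Fin m) → Finset (Fin N)) (n k : ℕ) : Prop where
  mono : ∀ X Y, X ⊆ Y → F X ⊆ F Y
  big : ∀ X, X.card = n → k ≤ (F X).card

/-- the colours that are absent from the complement -/
def dual (C : Finset (Fin m) → Finset (Fin N)) (Z : Finset (Fin m)) : Finset (Fin N) := (C Zᶜ)ᶜ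

/-- sets with few colours -/
abbrev High (F : Finset (Fin m) → Finset (Fin N)) (q r : ℕ) (Z : Finset (Fin m)) : Prop :=
  (F Z).card + r + 1 ≤ q * Z.card

/-- the number of sets through a point -/
def deg (I : Finset (Fin N)) (S : Fin N → Finset ℕ) (x : ℕ) : ℕ :=
  (I.filter fun c => x ∈ S c).card

/-- the number of sets that meet `B` -/
def cov (I : Finset (Fin N)) (S : Fin N → Finset ℕ) (B : Finset ℕ) : ℕ :=
  (I.filter fun c => (S c ∩ B).Nonempty).card

/-- the number of conflicts inside `B` -/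
def cf (I : Finset (Fin N)) (S : Fin N → Finset ℕ) (B : Finset ℕ) : ℕ :=
  ∑ c ∈ I, (S c ∩ B).card * ((S c ∩ B).card - 1)

/-- a cube of sets of size `sz`: a flip in direction `t` removes only the point `e T t` -/
structure Cb (j sz : ℕ) (Z : Finset ℕ → Finset (Fin m)) (e : Finset ℕ → ℕ → Fin m) : Prop where
  mem : ∀ T t, t < j → e T t ∈ Z T
  inj : ∀ T t t', t < j → t' < j → e T t = e T t' → t = t'
  sub : ∀ T t, t < j → (Z T).erase (e T t) ⊆ Z (T ∆ {t})
  card : ∀ T, (Z T).card = sz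

/-- the number of directions in which colour `c` changes -/
def sn (j : ℕ) (a : Finset ℕ → Finset (Fin N)) (c : Fin N) (T : Finset ℕ) : ℕ :=
  ((range j).filter fun t => c ∈ a T ∆ a (T ∆ {t})).card

/-- the colours of small sensitivity that die along an edge -/
def dl (j H : ℕ) (a : Finset ℕ → Finset (Fin N)) (T : Finset ℕ) (t : ℕ) : ℕ :=
  ((a T \ a (T ∆ {t})).filter fun c => sn j a c T ≤ H ∧ sn j a c (T ∆ {t}) ≤ H).card

/-- the excess of an edge -/
def ex (q j H : ℕ) (a : Finset ℕ → Finset (Fin N)) (T : Finset ℕ) (t : ℕ) : ℕ :=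
  dl j H a T t + 1 - q

/-- the total of the sensitivities that are at least two -/
def MM (j : ℕ) (a : Finset ℕ → Finset (Fin N)) (T : Finset ℕ) : ℕ :=
  ∑ c, if 2 ≤ sn j a c T then sn j a c T else 0

/-- the number of insensitive living colours -/
def uu (j : ℕ) (a : Finset ℕ → Finset (Fin N)) (T : Finset ℕ) : ℕ :=
  ((a T).filter fun c => sn j a c T = 0).card

/-- changes towards a neighbour where the sensitivity is at least two -/
def QQ (j : ℕ) (a : Finset ℕ → Finset (Fin N)) (T : Finset ℕ) : ℕ :=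
  ∑ t ∈ range j, ((a T ∆ a (T ∆ {t})).filter fun c => 2 ≤ sn j a c (T ∆ {t})).card

/-- the number of deaths -/
def dr (j : ℕ) (a : Finset ℕ → Finset (Fin N)) (T : Finset ℕ) : ℕ :=
  ∑ t ∈ range j, (a T \ a (T ∆ {t})).card

/-- first error term -/
def e1 (j H : ℕ) (a : Finset ℕ → Finset (Fin N)) (T : Finset ℕ) (i t : ℕ) : ℕ :=
  ((a T).filter fun c => c ∉ a (T ∆ {t}) ∧ c ∉ a (T ∆ {i}) ∧ sn j a c T ≤ H).card

/-- second error term -/
def e2 (j H : ℕ) (a : Finset ℕ → Finset (Fin N)) (T : Finset ℕ) (i t : ℕ) : ℕ :=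
  ((a T).filter fun c => c ∉ a (T ∆ {t}) ∧ c ∈ a ((T ∆ {t}) ∆ {i}) ∧
    sn j a c (T ∆ {t}) ≤ H).card

/-- the number of vertices where colour `c` lives -/
def al (j : ℕ) (a : Finset ℕ → Finset (Fin N)) (c : Fin N) : ℕ :=
  ((range j).powerset.filter fun T => c ∈ a T).card

/-- the isoperimetric excess of the cube -/
noncomputable def XX (j : ℕ) (a : Finset ℕ → Finset (Fin N)) : ℝ :=
  ∑ T ∈ (range j).powerset, ((dr j a T : ℝ) - (a T).card)

/-- the sign of a colour -/
noncomputable def sg (a : Finset ℕ → Finset (Fin N)) (c : Fin N) (T : Finset ℕ) : ℝ :=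
  if c ∈ a T then 1 else -1

/-- correlation of `f` with its mean over the directions in `W` -/
noncomputable def ps (j : ℕ) (f : Finset ℕ → ℝ) (W : Finset ℕ) : ℝ :=
  ∑ T ∈ (range j).powerset, f T * ((∑ U ∈ W.powerset, f (T ∆ U)) / 2 ^ W.card)

/-- a first order coefficient on the subcube `W` -/
noncomputable def bb (g : Finset ℕ → ℝ) (W : Finset ℕ) (t : ℕ) : ℝ :=
  (∑ U ∈ W.powerset, if t ∈ U then -g U else g U) / 2 ^ W.card

/-- boundary edges in direction `t` with small ends, counted from both ends -/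
def sm (j H : ℕ) (a : Finset ℕ → Finset (Fin N)) (c : Fin N) (t : ℕ) : ℕ :=
  ((range j).powerset.filter fun T => c ∈ a T ∆ a (T ∆ {t}) ∧ sn j a c T ≤ H ∧
    sn j a c (T ∆ {t}) ≤ H).card

/-- the number of vertices of large sensitivity -/
def nb (j H : ℕ) (a : Finset ℕ → Finset (Fin N)) (c : Fin N) : ℕ :=
  ((range j).powerset.filter fun T => H < sn j a c T).card

/-- boundary edges in direction `t` at vertices of large sensitivity -/
def bg (j H : ℕ) (a : Finset ℕ → Finset (Fin N)) (c : Fin N) (t : ℕ) : ℕ :=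
  ((range j).powerset.filter fun T => H < sn j a c T ∧ c ∈ a T ∆ a (T ∆ {t})).card

/-- the vertices of the cube of pairs -/
def xx (σ : Equiv.Perm (Fin m)) (j : ℕ) (T : Finset ℕ) : Finset (Fin m) := Ped.pull σ (Pos.qq j T)

theorem ff (T : Finset ℕ) (t : ℕ) : (T ∆ {t}) ∆ {t} = T := Pos.flip_flip T t

theorem fcomm (T : Finset ℕ) (t i : ℕ) : (T ∆ {t}) ∆ {i} = (T ∆ {i}) ∆ {t} :=
  symmDiff_right_comm _ _ _

theorem fl_mem {j t : ℕ} (ht : t < j) {T : Finset ℕ} (hT : T ∈ (range j).powerset) :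
    T ∆ {t} ∈ (range j).powerset := by
  rw [mem_powerset] at hT ⊢
  intro x hx
  rcases mem_symmDiff.1 hx with c | c
  · exact hT c.1
  · rw [mem_singleton.1 c.1]; exact mem_range.2 ht

theorem sum_fl {M : Type*} [AddCommMonoid M] {j t : ℕ} (ht : t < j) (f : Finset ℕ → M) :
    ∑ T ∈ (range j).powerset, f (T ∆ {t}) = ∑ T ∈ (range j).powerset, f T :=
  sum_bij' (fun T _ => T ∆ {t}) (fun T _ => T ∆ {t}) (fun _ h => fl_mem ht h)
    (fun _ h => fl_mem ht h) (fun T _ => ff T t) (fun T _ => ff T t) fun _ _ => rfl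

theorem sn_c (j : ℕ) (a : Finset ℕ → Finset (Fin N)) (c : Fin N) (T : Finset ℕ) :
    sn j (fun U => (a U)ᶜ) c T = sn j a c T := by
  unfold sn
  congr 1
  refine filter_congr fun t _ => ?_
  simp only [mem_symmDiff, mem_compl]
  tauto

end Pool.Agent.P.MP_a66f6f_co.NR
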