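import Pool.Agent.P.MP_a66f6f_co.NR.Defs

/-!
The steps of the proof for the range near the diagonal.
-/

namespace Pool.Agent.P.MP_a66f6f_co.NR

open Finset Ped Pos
open scoped symmDiff

-- deps:
def S_A0 : Prop := ∀ (m N n k q r : ℕ) (F : Finset (Fin m) → Finset (Fin N))
  (Y Z : Finset (Fin m)), Good F n k → k + r = q * n → 1 ≤ n → Y ⊆ Z → n ≤ Y.card →
  (q * Y.card : ℝ) ≤ (F Y).card + r + (Y.card - n) * (rb F Z + r) / n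

-- deps:
def S_A1 : Prop := ∀ (N q d : ℕ) (G0 : ℝ) (I : Finset (Fin N)) (S : Fin N → Finset ℕ)
  (D : Finset ℕ), 0 ≤ G0 → (∀ B ⊆ D, B.card = d → cov I S B < q * d) →
  (∀ B ⊆ D, B.card < d → (cov I S B : ℝ) ≤ q * B.card + G0) →
  ∀ B ⊆ D, ∑ x ∈ B, ((deg I S x + 1 - q : ℕ) : ℝ) ≤ d + G0 + cf I S B

-- deps:
def S_A2 : Prop := ∀ (N K : ℕ) (D0 : ℝ) (I : Finset (Fin N)) (S : Fin N → Finset ℕ)
  (D : Finset ℕ) (w : ℕ → ℝ), 1 ≤ K → (∀ B ⊆ D, ∑ x ∈ B, w x ≤ D0 + cf I S B) →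
  ∑ x ∈ D, w x ≤ K * D0 + cf I S D / K

-- deps: A0 A1 A2
def S_IN : Prop := ∀ (m N n k q r d K : ℕ) (p : ℝ) (F : Finset (Fin m) → Finset (Fin N))
  (Z : Finset (Fin m)) (D : Finset ℕ) (e : ℕ → Fin m) (I : Finset (Fin N))
  (S : Fin N → Finset ℕ), Good F n k → k + r = q * n → 1 ≤ n → 1 ≤ K → Z.card = n + d →
  High F q r Z → (∀ t ∈ D, e t ∈ Z) → (∀ t ∈ D, ∀ t' ∈ D, e t = e t' → t = t') → I ⊆ F Z →
  (∀ c ∈ I, ∀ t ∈ D, t ∈ S c → c ∉ F (Z.erase (e t))) → (rb F Z : ℝ) ≤ p →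
  ∑ t ∈ D, ((deg I S t + 1 - q : ℕ) : ℝ) ≤ K * (d + d * (p + r) / n) + cf I S D / K

-- deps: IN
def S_C1 : Prop := ∀ (m N n k q r d K j H : ℕ) (F : Finset (Fin m) → Finset (Fin N))
  (Z : Finset ℕ → Finset (Fin m)) (e : Finset ℕ → ℕ → Fin m) (T : Finset ℕ),
  Good F n k → k + r = q * n → 1 ≤ n → 1 ≤ K → Cb j (n + d) Z e → High F q r (Z T) →
  ∑ t ∈ range j, (ex q j H (fun U => F (Z U)) T t : ℝ) ≤
    K * (d + d * (rb F (Z T) + r) / n) + H * MM j (fun U => F (Z U)) T / K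

-- deps:
def S_C2 : Prop := ∀ (m N n k sz j : ℕ) (F : Finset (Fin m) → Finset (Fin N))
  (Z : Finset ℕ → Finset (Fin m)) (e : Finset ℕ → ℕ → Fin m) (T : Finset ℕ),
  Good F n k → Cb j sz Z e → rb F (Z T) ≤ uu j (fun U => F (Z U)) T ∧
  ∀ i < j, rb F (Z (T ∆ {i})) ≤ uu j (fun U => F (Z U)) T + QQ j (fun U => F (Z U)) T

-- deps: A0 C2
def S_C3 : Prop := ∀ (m N n k q r d j H : ℕ) (x : ℝ) (F : Finset (Fin m) → Finset (Fin N))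
  (Z : Finset ℕ → Finset (Fin m)) (e : Finset ℕ → ℕ → Fin m) (T : Finset ℕ),
  Good F n k → k + r = q * n → 1 ≤ n → Cb j (n + d) Z e → 1 ≤ d → 0 ≤ x →
  ((F (Z T)).card + r + 1 : ℝ) ≤ q * (n + d) + x → ∀ t < j,
  (ex q j H (fun U => F (Z U)) T t : ℝ) ≤ x + d * (uu j (fun U => F (Z U)) T + r) / n

-- deps: IN C2
def S_C4 : Prop := ∀ (m N n k q r d K j H : ℕ) (F : Finset (Fin m) → Finset (Fin N))
  (Z : Finset ℕ → Finset (Fin m)) (e : Finset ℕ → ℕ → Fin m) (T : Finset ℕ) (i : ℕ),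
  Good F n k → k + r = q * n → 1 ≤ n → 1 ≤ K → Cb j (n + d) Z e → i < j →
  High F q r (Z (T ∆ {i})) →
  ∑ t ∈ (range j).erase i, (ex q j H (fun U => F (Z U)) T t : ℝ) ≤
    K * (d + d * (uu j (fun U => F (Z U)) T + QQ j (fun U => F (Z U)) T + r) / n) +
    H * MM j (fun U => F (Z U)) T / K +
    ∑ t ∈ (range j).erase i, ((e1 j H (fun U => F (Z U)) T i t : ℝ) + e2 j H (fun U => F (Z U)) T i t)

-- deps:
def S_C5 : Prop := ∀ (N j H : ℕ) (a : Finset ℕ → Finset (Fin N)) (T : Finset ℕ),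
  ∑ i ∈ range j, ∑ t ∈ (range j).erase i, e1 j H a T i t ≤ H * MM j a T ∧
  ∑ i ∈ range j, ∑ t ∈ (range j).erase i, e2 j H a T i t ≤ H * QQ j a T

-- deps: C3 C4 C5
def S_C6 : Prop := ∀ (m N n k q r d K j H : ℕ) (x : ℝ) (F : Finset (Fin m) → Finset (Fin N))
  (Z : Finset ℕ → Finset (Fin m)) (e : Finset ℕ → ℕ → Fin m) (T : Finset ℕ),
  Good F n k → k + r = q * n → 1 ≤ n → 1 ≤ K → Cb j (n + d) Z e → 0 ≤ x →
  ((F (Z T)).card + r + 1 : ℝ) ≤ q * (n + d) + x →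
  ∑ t ∈ (range j).filter fun t => High F q r (Z (T ∆ {t})), (ex q j H (fun U => F (Z U)) T t : ℝ) ≤
    K * d + (K + 1) * (x + d * (uu j (fun U => F (Z U)) T + QQ j (fun U => F (Z U)) T + r) / n) +
    H * (2 * MM j (fun U => F (Z U)) T + QQ j (fun U => F (Z U)) T) / K

-- deps:
def S_KP : Prop := ∀ (N j : ℕ) (a : Finset ℕ → Finset (Fin N)) (c : Fin N),
  2 * al j a c ≤ 2 ^ j →
  ∑ T ∈ (range j).powerset, (if c ∈ a T ∧ sn j a c T = 0 then 1 else 0) + al j a c ≤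
    ∑ T ∈ (range j).powerset, (if c ∈ a T then sn j a c T else 0) ∧
  ∑ T ∈ (range j).powerset, (if 2 ≤ sn j a c T then sn j a c T else 0) + 8 * al j a c ≤
    8 * ∑ T ∈ (range j).powerset, (if c ∈ a T then sn j a c T else 0)

-- deps: KP
def S_KP2 : Prop := ∀ (N j : ℕ) (a : Finset ℕ → Finset (Fin N)), (∀ c, 2 * al j a c ≤ 2 ^ j) →
  ∑ T ∈ (range j).powerset, (uu j a T : ℝ) ≤ XX j a ∧
  ∑ T ∈ (range j).powerset, (MM j a T : ℝ) ≤ 8 * XX j a ∧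
  ∑ T ∈ (range j).powerset, (QQ j a T : ℝ) = ∑ T ∈ (range j).powerset, (MM j a T : ℝ)

-- deps:
def S_BES : Prop := ∀ (g : Finset ℕ → ℝ) (W : Finset ℕ), (∀ U, g U ^ 2 ≤ 1) →
  ∑ t ∈ W, bb g W t ^ 2 ≤ 1

-- deps:
def S_PSI : Prop := ∀ (j : ℕ) (f : Finset ℕ → ℝ) (W : Finset ℕ) (t : ℕ), t ∈ W →
  (∀ T, bb (fun U => f ((T ∆ {t}) ∆ U)) W t = -bb (fun U => f (T ∆ U)) W t) ∧
  (t < j → ps j f (W.erase t) - ps j f W =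
    ∑ T ∈ (range j).powerset, (f T - f (T ∆ {t})) / 2 * bb (fun U => f (T ∆ U)) W t)

-- deps: BES PSI
def S_STEP : Prop := ∀ (N j H : ℕ) (a : Finset ℕ → Finset (Fin N)) (c : Fin N) (W : Finset ℕ)
  (l : ℝ), W ⊆ range j → 0 < l →
  ∑ t ∈ W, (ps j (sg a c) (W.erase t) - ps j (sg a c) W) ≤
    ∑ t ∈ W, (sm j H a c t : ℝ) + l * nb j H a c + (∑ t ∈ W, (bg j H a c t : ℝ)) / l

-- deps:
def S_AVG : Prop := ∀ (V : Finset ℕ) (ψ : Finset ℕ → ℝ) (s u : ℕ → ℝ) (B G : ℝ), 0 ≤ B → 0 < G →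
  (∀ t, 0 ≤ u t) → G ^ 2 * B ≤ ∑ t ∈ V, u t →
  (∀ W ⊆ V, ∀ l : ℝ, 0 < l →
    ∑ t ∈ W, (ψ (W.erase t) - ψ W) ≤ ∑ t ∈ W, s t + l * B + (∑ t ∈ W, u t) / l) →
  ψ ∅ - ψ V ≤ ∑ t ∈ V, s t + 4 / G * ∑ t ∈ V, u t

-- deps: STEP AVG
def S_RT : Prop := ∀ (N j G : ℕ) (a : Finset ℕ → Finset (Fin N)) (c : Fin N), 1 ≤ G →
  4 * (al j a c : ℝ) * (2 ^ j - al j a c) ≤
    2 ^ j * (∑ t ∈ range j, (sm j (G ^ 2) a c t : ℝ) + 4 / G * ∑ t ∈ range j, (bg j (G ^ 2) a c t : ℝ))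

-- deps: RT
def S_RS : Prop := ∀ (N j G : ℕ) (a : Finset ℕ → Finset (Fin N)), 1 ≤ G →
  (∀ c, 2 * al j a c ≤ 2 ^ j) →
  ∑ T ∈ (range j).powerset, ((a T).card : ℝ) ≤
    ∑ T ∈ (range j).powerset, ∑ t ∈ range j, (dl j (G ^ 2) a T t : ℝ) +
    2 / G * ∑ T ∈ (range j).powerset, (MM j a T : ℝ)

-- deps:
def S_CB : Prop := ∀ (m N n k j : ℕ) (C : Finset (Fin m) → Finset (Fin N))
  (σ : Equiv.Perm (Fin m)), Sys C univ n k → 1 ≤ m → 2 * j ≤ m →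
  Good C n k ∧ Good (dual C) n k ∧ (∃ e, Cb j j (xx σ j) e) ∧
  (∃ e, Cb j (m - j) (fun T => (xx σ j T)ᶜ) e) ∧ ∀ c, 2 * al j (fun T => C (xx σ j T)) c ≤ 2 ^ j

-- deps: A0 C1 C6
def S_EDGE : Prop := ∀ (m N n k q r d d' K j H : ℕ) (C : Finset (Fin m) → Finset (Fin N))
  (Z : Finset ℕ → Finset (Fin m)) (e e' : Finset ℕ → ℕ → Fin m),
  Good C n k → Good (dual C) n k → k + r = q * n → 1 ≤ n → 1 ≤ K → m = 2 * n + d + d' →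
  N + 2 * r + 1 ≤ q * m → Cb j (n + d) Z e → Cb j (n + d') (fun T => (Z T)ᶜ) e' →
  ∑ T ∈ (range j).powerset, ∑ t ∈ range j, (ex q j H (fun U => C (Z U)) T t : ℝ) ≤
    ∑ T ∈ (range j).powerset, ((K * (d + d') + (2 * K + 1) * (d' * (rb (dual C) (Z T)ᶜ + r) / n) +
      (K + 1) * (d * (uu j (fun U => C (Z U)) T + QQ j (fun U => C (Z U)) T + r) / n) +
      H * (3 * MM j (fun U => C (Z U)) T + QQ j (fun U => C (Z U)) T) / K : ℝ))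

-- deps: EDGE RS KP2 CB
def S_CUBE : Prop := ∀ (m N n k q r s K G j : ℕ) (C : Finset (Fin m) → Finset (Fin N))
  (σ : Equiv.Perm (Fin m)), Sys C univ n k → k + r = q * n → 1 ≤ n → r ≤ n → 1 ≤ q → 1 ≤ K →
  1 ≤ G → m = 2 * n + s → N + 2 * r + 1 ≤ q * m → n ≤ j → 2 * j ≤ m →
  ∑ T ∈ (range j).powerset, ((C (xx σ j T)).card : ℝ) ≤
    2 ^ j * ((q - 1) * j + 6 * K * s) +
    3 * K * s / n * ∑ T ∈ (range j).powerset, (rb (dual C) (xx σ j T)ᶜ : ℝ) +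
    (18 * K * s / n + 32 * G ^ 2 / K + 16 / G) * XX j fun T => C (xx σ j T)

-- deps:
def S_AV : Prop := ∀ (m N n k j : ℕ) (C : Finset (Fin m) → Finset (Fin N)), Sys C univ n k →
  2 * j ≤ m →
  ∑ σ : Equiv.Perm (Fin m), ∑ T ∈ (range j).powerset, ((C (xx σ j T)).card : ℝ) =
    fac m * (2 ^ j * cc C j) ∧
  ∑ σ : Equiv.Perm (Fin m), ∑ T ∈ (range j).powerset, (rb (dual C) (xx σ j T)ᶜ : ℝ) ≤
    fac m * (2 ^ j * j0 C j) ∧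
  ∑ σ : Equiv.Perm (Fin m), XX j (fun T => C (xx σ j T)) ≤
    fac m * (2 ^ j * (j * cc C (j + 1) - (j + 1) * cc C j))

-- deps:
def S_LVN : Prop := ∀ (n s r : ℕ) (z : ℕ → ℝ), 1 ≤ n → 2 ≤ s → n * z n ≤ r →
  (∀ i, n ≤ i → 2 * i ≤ 2 * n + s → z (i + 1) ≤ z i) →
  2 * r ≤ (2 * n + s : ℝ) * z ((2 * n + s) / 2) →
  ∃ j, n ≤ j ∧ 2 * j ≤ 2 * n + s ∧ n * z j ≤ r ∧ 2 * ((j : ℝ) * (j + 1) * (z j - z (j + 1))) ≤ 3 * r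

-- deps: LVN
def S_LEV : Prop := ∀ (m N n k q r s : ℕ) (C : Finset (Fin m) → Finset (Fin N)), Sys C univ n k →
  k + r = q * n → r ≤ n → m = 2 * n + s → 2 ≤ s → 10 * s ≤ n → N + 2 * r + 1 ≤ q * m →
  ∃ j, n ≤ j ∧ 2 * j ≤ m ∧ n * (q * j - cc C j) ≤ r * j ∧
    2 * (j * cc C (j + 1) - (j + 1) * cc C j) ≤ 3 * n ∧ j0 C j ≤ 5 * n

-- deps:
def S_END : Prop := ∀ (n s b : ℕ), 1 ≤ b → b ≤ n → 10 ^ 9 * n ^ 3 * s < b ^ 4 →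
  ∃ G : ℕ, 1 ≤ G ∧ 48 * (G : ℝ) ^ 3 * s + 72 * n / G < b

-- deps: CUBE AV LEV END
def S_LOW : Prop := ∀ (m N n k q r b s : ℕ) (C : Finset (Fin m) → Finset (Fin N)),
  Sys C univ n k → k + r = q * n → b + r = n → 1 ≤ q → m = 2 * n + s → 2 ≤ s →
  10 ^ 9 * n ^ 3 * s < b ^ 4 → q * m ≤ N + 2 * r

-- deps: LOW
def S_MAIN : Prop := ∀ (n m a b : ℕ), 2 * n ≤ m → b ≤ n → 10 ^ 9 * n ^ 3 * (m - 2 * n) < b ^ 4 →
  IsLeast {N : ℕ | Nonempty (kneser m n →g kneser N (a * n + b))} ((a + 1) * m - 2 * (n - b))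

end Pool.Agent.P.MP_a66f6f_co.NR
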