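import Pool.Agent.P.MP_a66f6f_co.NR.Iface

/-! Step A0. -/

namespace Pool.Agent.P.MP_a66f6f_co.NR

open Finset Ped Pos
open scoped symmDiff

namespace A0c

theorem light {α : Type*} [DecidableEq α] (w : α → ℝ) (n : ℕ) (Y : Finset α) (h : n ≤ Y.card) :
    ∃ A ⊆ Y, A.card = n ∧ Y.card * ∑ i ∈ A, w i ≤ n * ∑ i ∈ Y, w i := by
  obtain ⟨d, hd⟩ := Nat.exists_eq_add_of_le h
  induction d generalizing Y with
  | zero => exact ⟨Y, Subset.rfl, hd, by rw [hd]; simp⟩
  | succ d ih =>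
    obtain ⟨x, hx, hm⟩ := exists_max_image Y w (card_pos.1 (by omega))
    have a1 : (Y.erase x).card = n + d := by rw [card_erase_of_mem hx]; omega
    obtain ⟨A, b1, b2, b3⟩ := ih (Y.erase x) (by omega) a1
    refine ⟨A, b1.trans (erase_subset _ _), b2, ?_⟩
    have a2 := sum_le_card_nsmul A w (w x) fun i hi => hm i (mem_of_mem_erase (b1 hi))
    rw [← add_sum_erase Y w hx, hd]
    rw [a1] at b3
    rw [b2, nsmul_eq_mul] at a2
    push_cast at b3 ⊢
    linarith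

end A0c

theorem p_A0 :
    S_A0 := by
  intro m N n k q r F Y Z g hk n1 hY hn
  have hm : 0 < m := by
    have := card_le_univ Y
    rw [Fintype.card_fin] at this
    omega
  have a1 : ∀ c, ∃ i, (¬ ∀ i, c ∈ F (Z.erase i)) → c ∉ F (Z.erase i) := fun c => by
    by_cases d : ∀ i, c ∈ F (Z.erase i)
    · exact ⟨⟨0, hm⟩, fun e => absurd d e⟩
    · obtain ⟨i, hi⟩ := not_forall.1 d
      exact ⟨i, fun _ => hi⟩
  choose φ hφ using a1
  obtain ⟨S, hS⟩ : ∃ S, S = (F Y).filter fun c => ¬ ∀ i, c ∈ F (Z.erase i) := ⟨_, rfl⟩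
  obtain ⟨R, hR⟩ : ∃ R, R = (F Y).filter fun c => ∀ i, c ∈ F (Z.erase i) := ⟨_, rfl⟩
  have a2 : ∀ B ⊆ Y, ∀ c ∈ S, c ∈ F B → φ c ∈ B := fun B hB c hc e => by
    by_contra d
    rw [hS] at hc
    exact hφ c (mem_filter.1 hc).2 (g.mono _ _ (subset_erase.2 ⟨hB.trans hY, d⟩) e)
  have a3 : ∑ i ∈ Y, (S.filter fun c => φ c = i).card + R.card = (F Y).card := by
    rw [← card_eq_sum_card_fiberwise fun c hc => a2 Y Subset.rfl c hc
      (by rw [hS] at hc; exact (mem_filter.1 hc).1), hS, hR, add_comm]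
    exact card_filter_add_card_filter_not _
  have a4 : ∀ B ⊆ Y, (F B).card ≤ ∑ i ∈ B, (S.filter fun c => φ c = i).card + R.card :=
    fun B hB => by
      rw [sum_card_fiberwise_eq_card_filter, hR]
      refine le_trans (card_le_card fun c hc => ?_) (card_union_le _ _)
      by_cases d : ∀ i, c ∈ F (Z.erase i)
      · exact mem_union_right _ (mem_filter.2 ⟨g.mono _ _ hB hc, d⟩)
      · have : c ∈ S := hS ▸ mem_filter.2 ⟨g.mono _ _ hB hc, d⟩
        exact mem_union_left _ (mem_filter.2 ⟨this, a2 B hB c this hc⟩)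
  have a5 : R.card ≤ rb F Z := by
    rw [hR]
    exact card_le_card (filter_subset_filter _ (g.mono _ _ hY))
  obtain ⟨A, b1, b2, b3⟩ := A0c.light (fun i => ((S.filter fun c => φ c = i).card : ℝ)) n Y hn
  have c1 : (k : ℝ) ≤ ∑ i ∈ A, ((S.filter fun c => φ c = i).card : ℝ) + R.card := by
    exact_mod_cast (g.big A b2).trans (a4 A b1)
  have c2 : ∑ i ∈ Y, ((S.filter fun c => φ c = i).card : ℝ) + R.card = (F Y).card := by
    exact_mod_cast a3
  have c3 : (R.card : ℝ) ≤ rb F Z := by exact_mod_cast a5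
  have c4 : (k : ℝ) + r = q * n := by exact_mod_cast hk
  have c5 : (n : ℝ) ≤ Y.card := by exact_mod_cast hn
  have n0 : (0 : ℝ) < n := by exact_mod_cast n1
  rw [← sub_le_iff_le_add', le_div_iff₀ n0]
  nlinarith [mul_le_mul_of_nonneg_left c1 (show (0 : ℝ) ≤ Y.card by linarith),
    mul_le_mul_of_nonneg_left c3 (sub_nonneg.2 c5)]

end Pool.Agent.P.MP_a66f6f_co.NR
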