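import Pool.Agent.P.MP_a66f6f_co.NR.Iface

/-! Step KP2. -/

namespace Pool.Agent.P.MP_a66f6f_co.NR

open Finset Ped Pos
open scoped symmDiff

namespace KP2c

variable {N : ℕ} (j : ℕ) (a : Finset ℕ → Finset (Fin N))

theorem h_uu (T : Finset ℕ) :
    ∑ c, (if c ∈ a T ∧ sn j a c T = 0 then 1 else 0) = uu j a T := by
  rw [uu, ← card_filter]
  congr 1
  ext c
  simp

theorem h_al : ∑ c, al j a c = ∑ T ∈ (range j).powerset, (a T).card := by
  simp only [al, card_filter]
  rw [sum_comm]
  refine sum_congr rfl fun T _ => ?_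
  rw [← card_filter]
  congr 1
  ext c
  simp

theorem h_dr (T : Finset ℕ) : ∑ c, (if c ∈ a T then sn j a c T else 0) = dr j a T := by
  have e : ∀ c, (if c ∈ a T then sn j a c T else 0) =
      ∑ t ∈ range j, if c ∈ a T \ a (T ∆ {t}) then 1 else 0 := fun c => by
    split_ifs with h
    · rw [sn, card_filter]
      exact sum_congr rfl fun t _ => by simp [mem_symmDiff, h]
    · simp [h]
  simp only [e]
  rw [sum_comm, dr]
  refine sum_congr rfl fun t _ => ?_
  rw [← card_filter]
  congr 1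
  ext c
  simp

theorem h_QQ : ∑ T ∈ (range j).powerset, QQ j a T = ∑ T ∈ (range j).powerset, MM j a T := by
  simp only [QQ]
  rw [sum_comm]
  have e : ∀ t ∈ range j, ∑ T ∈ (range j).powerset,
      ((a T ∆ a (T ∆ {t})).filter fun c => 2 ≤ sn j a c (T ∆ {t})).card =
      ∑ T ∈ (range j).powerset, ((a T ∆ a (T ∆ {t})).filter fun c => 2 ≤ sn j a c T).card :=
    fun t ht => by
      rw [← sum_fl (mem_range.1 ht)
        fun T => ((a T ∆ a (T ∆ {t})).filter fun c => 2 ≤ sn j a c T).card]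
      exact sum_congr rfl fun T _ => by rw [ff, symmDiff_comm (a T)]
  rw [sum_congr rfl e, sum_comm]
  refine sum_congr rfl fun T _ => ?_
  have e2 : ∀ t, ((a T ∆ a (T ∆ {t})).filter fun c => 2 ≤ sn j a c T).card =
      ∑ c, if 2 ≤ sn j a c T then (if c ∈ a T ∆ a (T ∆ {t}) then 1 else 0) else 0 := fun t => by
    simp only [← ite_and]
    rw [← card_filter]
    congr 1
    ext c
    simp [and_comm]
  simp only [e2]
  rw [sum_comm, MM]
  refine sum_congr rfl fun c _ => ?_
  split_ifs
  · rw [sn, card_filter]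
  · simp

end KP2c

open KP2c in
theorem p_KP2 (hKP : S_KP) :
    S_KP2 := by
  intro N j a h
  have h1 := sum_le_sum (s := univ) fun c _ => (hKP N j a c (h c)).1
  have h2 := sum_le_sum (s := univ) fun c _ => (hKP N j a c (h c)).2
  rw [sum_add_distrib, sum_comm, h_al, sum_comm (s := univ)] at h1
  rw [sum_add_distrib, ← mul_sum, ← mul_sum, sum_comm, h_al, sum_comm (s := univ)] at h2
  simp only [h_uu, h_dr] at h1 h2
  have h3 : ∑ T ∈ (range j).powerset, MM j a T + 8 * ∑ T ∈ (range j).powerset, (a T).card ≤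
      8 * ∑ T ∈ (range j).powerset, dr j a T := h2
  rw [XX, sum_sub_distrib]
  refine ⟨?_, ?_, by exact_mod_cast h_QQ j a⟩
  · rw [le_sub_iff_add_le]
    exact_mod_cast h1
  · rw [mul_sub, le_sub_iff_add_le]
    exact_mod_cast h3

end Pool.Agent.P.MP_a66f6f_co.NR
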