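import Pool.Agent.P.MP_a66f6f_co.NR.Iface

/-! Step LVN. -/

namespace Pool.Agent.P.MP_a66f6f_co.NR

open Finset Ped Pos
open scoped symmDiff

theorem p_LVN :
    S_LVN := by
  intro n s r z n1 s2 h0 mono top
  by_contra hc
  push Not at hc
  have n0 : (0 : ℝ) < n := by exact_mod_cast n1
  have r0 : (0 : ℝ) ≤ r := Nat.cast_nonneg _
  have key : ∀ l, n ≤ l → 2 * l ≤ 2 * n + s → z l ≤ z n ∧
      (n < l → 3 * r * ((l : ℝ) - n) < 2 * n * l * (z n - z l)) := by
    intro l h1
    induction l, h1 using Nat.le_induction with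
    | base => simp
    | succ l h1 ih =>
      intro h2
      obtain ⟨i1, i2⟩ := ih (by omega)
      have a1 := mono l h1 (by omega)
      have a2 := hc l h1 (by omega) (by nlinarith)
      refine ⟨a1.trans i1, fun _ => ?_⟩
      have l1 : (n : ℝ) ≤ l := by exact_mod_cast h1
      have a3 : 3 * r * ((l : ℝ) - n) ≤ 2 * n * l * (z n - z l) := by
        rcases h1.eq_or_lt with c | c
        · subst c; simp
        · exact (i2 c).le
      push_cast
      refine lt_of_mul_lt_mul_left ?_ (show (0 : ℝ) ≤ l by linarith)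
      nlinarith [mul_lt_mul_of_pos_left a2 n0,
        mul_le_mul_of_nonneg_left a3 (show (0 : ℝ) ≤ l + 1 by linarith)]
  obtain ⟨h, hh⟩ : ∃ h, h = (2 * n + s) / 2 := ⟨_, rfl⟩
  rw [← hh] at top
  have a1 := (key h (by omega) (by omega)).2 (by omega)
  have a2 : (2 : ℝ) * h ≤ 2 * n + s := by exact_mod_cast (show 2 * h ≤ 2 * n + s by omega)
  have a3 : (s : ℝ) + 3 * n ≤ 3 * h := by exact_mod_cast (show s + 3 * n ≤ 3 * h by omega)
  have s0 : (0 : ℝ) ≤ s := Nat.cast_nonneg _
  have h1 : (0 : ℝ) < h := by linarith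
  have m0 : (0 : ℝ) < 2 * n + s := by linarith
  have a4 : (2 * n + s : ℝ) * (n * (z n - z h)) ≤ r * s := by
    nlinarith [mul_le_mul_of_nonneg_left h0 m0.le, mul_le_mul_of_nonneg_left top n0.le]
  have a5 := mul_lt_mul_of_pos_left a1 m0
  have a6 := mul_le_mul_of_nonneg_left a4 (show (0 : ℝ) ≤ 2 * h by linarith)
  have a7 : 2 * (h : ℝ) * s ≤ (2 * n + s) * (3 * (h - n)) :=
    mul_le_mul a2 (by linarith) s0 m0.le
  nlinarith [mul_le_mul_of_nonneg_left a7 r0]

end Pool.Agent.P.MP_a66f6f_co.NR
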